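import Pool.Agent.H435.BL.Prod

/-!
The inequality at each of the generic points of the curve.
-/

set_option autoImplicit false
set_option linter.unusedSectionVars false
set_option linter.unusedSimpArgs false

open MvPolynomial FF Pool.Agent.W603.LV Pool.Agent.W603.PV Pool.Agent.TH145.GH
open Pool.Agent.Y735 (vol vol_apply pl po po_le exists_po fht po_finite fht_nonneg)
open Pool.Agent.W602.GT Pool.Agent.TH145.GF
open Pool.Agent.TH145.GC (Cf)

namespace Pool.Agent.H435.BL

open Pool.Agent.Y741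
open Pool.Agent.H435.VG (ge_po le_po fs_le fin_mul fin_add fin_sum)

section

variable {k L : Type} [Field k] [Field L] [Algebra k L] [IsAlgClosed k] [CharZero k] [IsFF k L]
  {n : ℕ} {A : Type} [Fintype A] {dg : A → ℕ}

/-- The place of a positive multiplicity. -/
theorem exists_pos {x : Fin (n + 1) → L} {p : Fin (n + 1) → k}
    (hpl : pl x (pc L p) ≠ 0) (h : 0 < pht k x - fht k (pl x (pc L p))) :
    ∃ P : Place k L, 1 ≤ po P (pl x (pc L p)) - pord P x := by
  by_contra hcon
  push Not at hcon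
  have h2 : ∀ P : Place k L, po P (pl x (pc L p)) = pord P x := by
    intro P
    have h3 := mult_nonneg P hpl
    have h4 := hcon P
    omega
  unfold pht fht at h
  rw [finsum_congr h2] at h
  linarith

/-- The degree and the multiplicities, for a curve through a generic point. -/
theorem mainI (hn : n = Fintype.card A + 2) (hdg : ∀ a, 2 ≤ dg a)
    {G : A → MvPolynomial (Fin (n + 1)) k} (hG : ∀ a, (G a).IsHomogeneous (dg a))
    (hgen : AlgebraicIndependent ℚ fun p : Cf n dg => (G p.1).coeff p.2.1)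
    {x : Fin (n + 1) → L} {a b : Fin (n + 1)} (hb : x b ≠ 0)
    (hab : Transcendental k (x a / x b)) (hx : ∀ a, aeval x (G a) = 0)
    {Q : Type} [Fintype Q] {q : Q → Fin (n + 1) → k} (hq0 : ∀ l, ∃ c, q l c ≠ 0)
    (hqd : ∀ l l', l ≠ l' → pl (q l) (q l') ≠ 0)
    {J : Type} [Fintype J] {p : J → Fin (n + 1) → k}
    (hp : ∀ i, ∃ a b c, p i c ≠ 0 ∧
      AlgebraicIndependent (KK G q p i) ![p i a / p i c, p i b / p i c])
    (i : J) (hi : 0 < pht k x - fht k (pl x (pc L (p i)))) :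
    (((∑ a, dg a : ℕ) : ℤ) - n - 1) * pht k x +
      ∑ l, (pht k x - fht k (pl x (pc L (q l)))) + ∑ j, (pht k x - fht k (pl x (pc L (p j)))) -
      (pht k x - fht k (pl x (pc L (p i)))) ≤ canDeg k L := by
  classical
  have hx0 : x ≠ 0 := fun h => hb (congrFun h b)
  choose ca cb cc hcc hci using hp
  choose cq hcq using hq0
  have hplp : ∀ j, pl x (pc L (p j)) ≠ 0 := fun j => pl_ne hb hab ⟨_, hcc j⟩
  have hplq : ∀ j, pl x (pc L (q j)) ≠ 0 := fun j => pl_ne hb hab ⟨_, hcq j⟩
  obtain ⟨P, hP⟩ := exists_pos (hplp i) hi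
  -- all points
  obtain ⟨o, ho⟩ : ∃ o : J ⊕ Q → Fin (n + 1) → k, o = Sum.elim p q := ⟨_, rfl⟩
  obtain ⟨co, hco⟩ : ∃ co : J ⊕ Q → Fin (n + 1), co = Sum.elim cc cq := ⟨_, rfl⟩
  have hoc : ∀ j, o j (co j) ≠ 0 := by
    rw [ho, hco]
    rintro (j | l)
    · exact hcc j
    · exact hcq l
  have hpl : ∀ j, pl x (pc L (o j)) ≠ 0 := fun j => pl_ne hb hab ⟨_, hoc j⟩
  have hpos : ∀ j, 0 ≤ pht k x - fht k (pl x (pc L (o j))) := fun j => pos_mult hx0 (hpl j)
  -- normalisation
  have hxa : x (cc i) ≠ 0 := by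
    intro h0
    have h1 : po P (pl x (pc L (p i))) ≤ pord P x := by
      refine le_po P hx0 fun l => ?_
      have h2 := ge_po P (pl x (pc L (p i))) (l, cc i)
      simp only [pl, pc] at h2
      rw [h0, zero_mul, sub_zero] at h2
      have h3 : algebraMap k L (p i (cc i)) ≠ 0 := (map_ne_zero _).2 (hcc i)
      have h4 : Ge P 0 (algebraMap k L (p i (cc i)))⁻¹ := by
        rw [← map_inv₀]
        exact Ge.const _
      have h5 := h2.mul h4
      rw [mul_assoc, mul_inv_cancel₀ h3, mul_one, add_zero] at h5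
      exact h5
    omega
  obtain ⟨x', hx'⟩ : ∃ x' : Fin (n + 1) → L, x' = fun l => (x (cc i))⁻¹ * x l := ⟨_, rfl⟩
  obtain ⟨o', ho'⟩ : ∃ o' : J ⊕ Q → Fin (n + 1) → k, ∀ j, o' j = fun l => o j l / o j (co j) :=
    ⟨_, fun _ => rfl⟩
  have hplx : ∀ j, pl x' (pc L (o' j)) = fun q =>
      ((x (cc i))⁻¹ * (algebraMap k L (o j (co j)))⁻¹) * pl x (pc L (o j)) q := by
    intro j
    funext q
    simp only [pl, pc]
    rw [hx', ho', map_div₀, map_div₀]
    ring
  have hc0 : ∀ j, (x (cc i))⁻¹ * (algebraMap k L (o j (co j)))⁻¹ ≠ 0 := fun j =>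
    mul_ne_zero (inv_ne_zero hxa) (inv_ne_zero ((map_ne_zero _).2 (hoc j)))
  have hf' : ∀ j, fht k (pl x' (pc L (o' j))) = fht k (pl x (pc L (o j))) := fun j => by
    rw [hplx]
    exact fht_scale (hpl j) (hc0 j)
  have hxx : pht k x' = pht k x := by
    rw [hx']
    exact pht_scale ⟨b, hb⟩ (inv_ne_zero hxa)
  have hpord : pord P x' = P.ord (x (cc i))⁻¹ + pord P x := by
    rw [hx']
    exact pord_scale P ⟨b, hb⟩ (inv_ne_zero hxa)
  have hP' : 1 ≤ po P (pl x' (pc L (o' (Sum.inl i)))) - pord P x' := by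
    have h1 : o (Sum.inl i) = p i := by rw [ho]; rfl
    rw [hplx, po_scale P (hpl _) (hc0 _), hpord,
      P.ord_mul (inv_ne_zero hxa) (inv_ne_zero ((map_ne_zero _).2 (hoc _))), P.ord_inv,
      P.ord_inv, P.ord_const (hoc _), h1]
    rw [neg_zero]
    linarith
  have hpl' : ∀ j, pl x' (pc L (o' j)) ≠ 0 := by
    intro j h0
    apply hpl j
    funext q
    have h1 := congrFun h0 q
    rw [hplx] at h1
    exact (mul_eq_zero.1 h1).resolve_left (hc0 j)
  obtain ⟨l0, hl0⟩ : ∃ l0, Transcendental k (x' l0) := by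
    by_contra hcon
    push Not at hcon
    have h1 : ∀ l, IsAlgebraic k (x' l) := fun l => by
      have h2 := hcon l
      rwa [Transcendental, not_not] at h2
    have h2 : x a / x b = x' a / x' b := by
      rw [hx']
      field_simp
    apply hab
    rw [h2, div_eq_mul_inv]
    exact (h1 a).mul (h1 b).inv
  have hKp : ∀ i j : J, j ≠ i → ∀ u v, p j u / p j v ∈ KK G q p i := fun i j h u v =>
    IntermediateField.subset_adjoin ℚ _ (Or.inr ⟨j, h, u, v, rfl⟩)
  have hKq : ∀ (i : J) (l : Q) u v, q l u / q l v ∈ KK G q p i := fun i l u v =>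
    IntermediateField.subset_adjoin ℚ _ (Or.inl (Or.inr ⟨l, u, v, rfl⟩))
  have htr : ∀ j, Transcendental (KK G q p j) (p j (ca j) / p j (cc j)) := fun j =>
    (hci j).transcendental 0
  have hsym : ∀ y z : Fin (n + 1) → k, pl y z ≠ 0 → pl z y ≠ 0 := by
    intro y z h h0
    apply h
    funext r
    have h1 := congrFun h0 r
    simp only [pl] at h1 ⊢
    rw [Pi.zero_apply] at h1 ⊢
    linear_combination -h1
  have hdist0 : ∀ j j', j ≠ j' → pl (o j) (o j') ≠ 0 := by
    rw [ho]
    rintro (j | l) (j' | l') hne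
    · exact dist_gen (hcc j) (htr j) ⟨_, hcc j'⟩
        (hKp j j' fun h => hne (by rw [h]))
    · exact dist_gen (hcc j) (htr j) ⟨_, hcq l'⟩ (hKq j l')
    · exact hsym _ _ (dist_gen (hcc j') (htr j') ⟨_, hcq l⟩ (hKq j' l))
    · exact hqd l l' fun h => hne (by rw [h])
  have hdist : ∀ j j', j ≠ j' → pl (o' j) (o' j') ≠ 0 := fun j j' hne => by
    rw [ho', ho']
    exact pl_norm (hoc j) (hoc j') (hdist0 j j' hne)
  have h1 := core (k := k) (L := L) hn hdg hG hgen (x := x') (a0 := cc i) (l0 := l0)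
    (by rw [hx']; exact inv_mul_cancel₀ hxa) hl0 (fun e => by
      have h2 := eval_smul_hom ((hG e).map (algebraMap k L)) x (x (cc i))⁻¹
      rw [eval_map, eval_map] at h2
      have h3 : x' = (x (cc i))⁻¹ • x := hx'
      rw [h3]
      change eval₂ (algebraMap k L) ((x (cc i))⁻¹ • x) (G e) = 0
      rw [h2]
      have h4 : eval₂ (algebraMap k L) x (G e) = 0 := hx e
      rw [h4, mul_zero])
    (Finset.univ.erase (Sum.inl i)) (p := o')
    (fun j _ => ⟨co j, by rw [ho']; exact div_self (hoc j)⟩)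
    (k0 := KK G q p i)
    (fun a u => ⟨⟨(G a).coeff u, IntermediateField.subset_adjoin ℚ _
      (Or.inl (Or.inl ⟨a, u, rfl⟩))⟩, rfl⟩)
    (fun j hj l => by
      rcases j with j | j
      · refine ⟨⟨p j l / p j (cc j), hKp i j (fun h => ?_) l (cc j)⟩, ?_⟩
        · exact (Finset.ne_of_mem_erase hj) (by rw [h])
        · rw [ho', ho, hco]
          rfl
      · refine ⟨⟨q j l / q j (cq j), hKq i j l (cq j)⟩, ?_⟩
        rw [ho', ho, hco]
        rfl)
    (fun j _ j' _ h => hdist j j' h) hpl' (o := o' (Sum.inl i))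
    (by
      have h2 : co (Sum.inl i) = cc i := by rw [hco]; rfl
      rw [ho']
      change o (Sum.inl i) (cc i) / o (Sum.inl i) (co (Sum.inl i)) = 1
      rw [h2, ← h2]
      exact div_self (hoc _))
    (m := ![ca i, cb i]) (by
      have h2 := hci i
      have h3 : (fun c => o' (Sum.inl i) ((![ca i, cb i] : Fin (1 + 1) → Fin (n + 1)) c)) =
          ![p i (ca i) / p i (cc i), p i (cb i) / p i (cc i)] := by
        funext c
        rw [ho', ho, hco]
        fin_cases c <;> rfl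
      rw [h3]
      exact h2) P hP'
  have hs : ∑ j ∈ Finset.univ.erase (Sum.inl i : J ⊕ Q),
      (pht k x - fht k (pl x' (pc L (o' j)))) =
      ∑ j ∈ Finset.univ.erase (Sum.inl i : J ⊕ Q), (pht k x - fht k (pl x (pc L (o j)))) :=
    Finset.sum_congr rfl fun j _ => by rw [hf' j]
  rw [hxx, hs] at h1
  have h2 := Finset.add_sum_erase Finset.univ
    (fun j : J ⊕ Q => pht k x - fht k (pl x (pc L (o j)))) (Finset.mem_univ (Sum.inl i))
  rw [Fintype.sum_sum_type] at h2
  have h5 : ∑ j : J, (pht k x - fht k (pl x (pc L (o (Sum.inl j))))) =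
      ∑ j, (pht k x - fht k (pl x (pc L (p j)))) := by rw [ho]; rfl
  have h6 : ∑ j : Q, (pht k x - fht k (pl x (pc L (o (Sum.inr j))))) =
      ∑ l, (pht k x - fht k (pl x (pc L (q l)))) := by rw [ho]; rfl
  have h7 : fht k (pl x (pc L (o (Sum.inl i)))) = fht k (pl x (pc L (p i))) := by rw [ho]; rfl
  rw [h5, h6, h7] at h2
  linarith

end

end Pool.Agent.H435.BL
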