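import Pool.Agent.H435.BL.Loc
import Pool.Agent.H435.VG.Fe

/-!
The derivatives of a point of a curve near a constant point.
-/

set_option autoImplicit false
set_option linter.unusedSectionVars false
set_option linter.unusedSimpArgs false

open MvPolynomial FF Pool.Agent.W603.LV Pool.Agent.W603.PV Pool.Agent.TH145.GH
open Pool.Agent.Y735 (vol vol_apply pl po po_le exists_po fht po_finite)
open Pool.Agent.W602.GT Pool.Agent.TH145.GF

namespace Pool.Agent.H435.BL

open Pool.Agent.Y741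
open Pool.Agent.H435.VG (ge_po le_po fs_le fin_mul fin_add fin_sum)

section

variable {k L : Type} [Field k] [Field L] [Algebra k L] [IsAlgClosed k] [CharZero k] [IsFF k L]
  {n : ℕ}

/-- The constant point as a point over the field of functions. -/
def pc (L : Type) [Field L] [Algebra k L] (p : Fin (n + 1) → k) : Fin (n + 1) → L :=
  fun l => algebraMap k L (p l)

theorem ge_der (P : Place k L) {E : Derivation ℤ L L} (hE : Sem k E) (hπ : E (unif P) = 0)
    (e : ℕ) {f : L} (hf : Ge P e f) : Ge P e (E f) := by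
  have hπ1 := ord_unif P
  have hπ0 : unif P ≠ 0 := by
    intro h0
    rw [h0, P.ord_zero] at hπ1
    exact zero_ne_one hπ1
  have h1 : f = unif P ^ e * (f / unif P ^ e) := by
    field_simp
  have h2 : Ge P 0 (f / unif P ^ e) := by
    have h3 : Ge P (-(e : ℤ)) ((unif P ^ e)⁻¹) := by
      right
      rw [P.ord_inv, P.ord_pow, hπ1, mul_one]
    rw [div_eq_mul_inv]
    exact (hf.mul h3).mono (by omega)
  rw [h1, E.leibniz, E.leibniz_pow, hπ]
  simp only [smul_eq_mul, nsmul_eq_mul, mul_zero, smul_zero, add_zero]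
  have h4 : Ge P (e : ℤ) (unif P ^ e) := by
    right
    rw [P.ord_pow, hπ1, mul_one]
  exact (h4.mul (reg_of_zero P hπ1 hE hπ h2)).mono (by omega)

theorem exists_vert (P : Place k L) {Db : Derivation ℤ L L} (hS : Sem k Db)
    {δ : Derivation k L L} (hδ : δ ≠ 0) :
    ∃ (E : Derivation ℤ L L) (γ : L), Sem k E ∧ E (unif P) = 0 ∧
      (∀ f, Db f = E f + γ * δ f) ∧ ∀ c : k, E (algebraMap k L c) = Db (algebraMap k L c) := by
  have hδπ := der_pi_ne_zero hδ P (ord_unif P)
  obtain ⟨γ, hγ⟩ : ∃ γ, γ = Db (unif P) / δ (unif P) := ⟨_, rfl⟩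
  obtain ⟨E, hE⟩ : ∃ E : Derivation ℤ L L, ∀ f, E f = Db f - γ * δ f :=
    ⟨Db - (γ • δ).restrictScalars ℤ, fun f => by simp⟩
  refine ⟨E, γ, fun c => ?_, ?_, fun f => by rw [hE]; ring, fun c => ?_⟩
  · obtain ⟨c', hc'⟩ := hS c
    exact ⟨c', by rw [hE, hc', δ.map_algebraMap, mul_zero, sub_zero]⟩
  · rw [hE, hγ, div_mul_cancel₀ _ hδπ, sub_self]
  · rw [hE, δ.map_algebraMap, mul_zero, sub_zero]

theorem dec0 (P : Place k L) {Db : Derivation ℤ L L} (hS : Sem k Db)
    {δ : Derivation k L L} (hδ : δ ≠ 0) {x : Fin (n + 1) → L} (hx0 : x ≠ 0) :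
    ∃ (w0 : Fin (n + 1) → L) (α β : L), (fun l => Db (x l)) =
      w0 + α • x + β • (fun l => δ (x l)) ∧ ∀ l, Ge P (pord P x + 0) (w0 l) := by
  obtain ⟨E, γ, hE, hEπ, hDE, -⟩ := exists_vert P hS hδ
  obtain ⟨lam, x', hlam, hlamP, hxx, hx', i1, hi1⟩ := exists_scaled P hx0
  have hxl : ∀ l, x l = lam * x' l := fun l => congrFun hxx l
  refine ⟨fun l => lam * E (x' l), E lam / lam, γ, ?_, fun l => ?_⟩
  · funext l
    rw [Pi.add_apply, Pi.add_apply, Pi.smul_apply, Pi.smul_apply, smul_eq_mul, smul_eq_mul, hDE]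
    congr 1
    rw [hxl, E.leibniz]
    simp only [smul_eq_mul]
    field_simp
  · have h1 : Ge P (pord P x) lam := Or.inr hlamP.ge
    have h2 := ge_der P hE hEπ 0 (f := x' l) (by rw [Nat.cast_zero]; exact hx' l)
    rw [Nat.cast_zero] at h2
    exact h1.mul h2

theorem ge_pl (P : Place k L) {x x' y : Fin (n + 1) → L} {lam : L} (hlam : lam ≠ 0)
    (hlamP : P.ord lam = pord P x) (hxl : ∀ l, x l = lam * x' l)
    (q : Fin (n + 1) × Fin (n + 1)) : Ge P (po P (pl x y) - pord P x) (pl x' y q) := by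
  have h1 := ge_po P (pl x y) q
  have h2 : pl x' y q = lam⁻¹ * pl x y q := by
    simp only [pl]
    rw [hxl, hxl]
    field_simp
  rw [h2]
  have h3 : Ge P (-pord P x) lam⁻¹ := by
    right
    rw [P.ord_inv, hlamP]
  exact (h3.mul h1).mono (by omega)

theorem dec1 (P : Place k L) {Db : Derivation ℤ L L} (hS : Sem k Db)
    {δ : Derivation k L L} (hδ : δ ≠ 0) {x : Fin (n + 1) → L} (hx0 : x ≠ 0)
    {p : Fin (n + 1) → k} {s : Fin (n + 1)} (hs : p s = 1)
    (hpD : ∀ l, Db (algebraMap k L (p l)) = 0) {e : ℕ} (he1 : 1 ≤ e)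
    (he : (e : ℤ) = po P (pl x (pc L p)) - pord P x) :
    ∃ (w0 : Fin (n + 1) → L) (α β : L), (fun l => Db (x l)) =
      w0 + α • x + β • (fun l => δ (x l)) ∧ ∀ l, Ge P (pord P x + e) (w0 l) := by
  obtain ⟨E, γ, hE, hEπ, hDE, hEc⟩ := exists_vert P hS hδ
  obtain ⟨lam, x', hlam, hlamP, hxx, hx', i1, hi1⟩ := exists_scaled P hx0
  have hxl : ∀ l, x l = lam * x' l := fun l => congrFun hxx l
  obtain ⟨y, hy⟩ : ∃ y : Fin (n + 1) → L, ∀ l, y l = x' l - x' s * algebraMap k L (p l) :=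
    ⟨_, fun _ => rfl⟩
  have hye : ∀ l, Ge P e (y l) := fun l => by
    have h1 := ge_pl P hlam hlamP hxl (y := pc L p) (l, s)
    rw [← he] at h1
    have h2 : pl x' (pc L p) (l, s) = y l := by
      rw [hy]
      simp only [pl, pc]
      rw [hs, map_one, mul_one]
    rwa [h2] at h1
  have hy1 : ∀ l, Ge P 1 (y l) := fun l => (hye l).mono (by exact_mod_cast he1)
  have hc0 : ∀ c : k, Ge P 0 (algebraMap k L c) := fun c => Ge.const c
  have hxs : ¬ Ge P 1 (x' s) := by
    intro h1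
    have h2 := (hy1 i1).add ((h1.mul (hc0 (p i1))))
    rw [hy, hi1, sub_add_cancel] at h2
    rcases h2 with h2 | h2
    · exact one_ne_zero h2
    · rw [P.ord_one] at h2
      omega
  have hxs0 : x' s ≠ 0 := fun h => hxs (Or.inl h)
  have hxsP : P.ord (x' s) = 0 := by
    have h1 := (hx' s).resolve_left hxs0
    have h2 : ¬ (1 ≤ P.ord (x' s)) := fun h => hxs (Or.inr h)
    omega
  have hinv : Ge P 0 (x' s)⁻¹ := by
    right
    rw [P.ord_inv, hxsP, neg_zero]
  refine ⟨fun l => lam * (E (y l) - E (x' s) * (x' s)⁻¹ * y l), E lam / lam + E (x' s) / x' s,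
    γ, ?_, fun l => ?_⟩
  · funext l
    rw [Pi.add_apply, Pi.add_apply, Pi.smul_apply, Pi.smul_apply, smul_eq_mul, smul_eq_mul, hDE]
    congr 1
    have h1 : x' l = x' s * algebraMap k L (p l) + y l := by rw [hy]; ring
    have h2 : E (x' l) = E (x' s) * algebraMap k L (p l) + E (y l) := by
      conv_lhs => rw [h1]
      rw [map_add, E.leibniz, hEc, hpD]
      simp only [smul_eq_mul]
      ring
    have h3 : algebraMap k L (p l) = (x' l - y l) / x' s := by
      rw [h1]
      field_simp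
      ring
    rw [hxl, E.leibniz, h2, h3]
    simp only [smul_eq_mul]
    field_simp
    ring
  · have h1 : Ge P (pord P x) lam := Or.inr hlamP.ge
    have h2 := ge_der P hE hEπ e (hye l)
    have h3 := ge_der P hE hEπ 0 (f := x' s) (by rw [Nat.cast_zero]; exact hx' s)
    rw [Nat.cast_zero] at h3
    refine h1.mul (h2.sub ?_)
    exact ((h3.mul hinv).mul (hye l)).mono (by omega)

/-- The curve is near to one constant point only. -/
theorem excl (P : Place k L) {x : Fin (n + 1) → L} (hx0 : x ≠ 0) {p q : Fin (n + 1) → k}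
    (hpq : pl p q ≠ 0) (h1 : 1 ≤ po P (pl x (pc L p)) - pord P x)
    (h2 : 1 ≤ po P (pl x (pc L q)) - pord P x) : False := by
  obtain ⟨lam, x', hlam, hlamP, hxx, hx', i1, hi1⟩ := exists_scaled P hx0
  have hxl : ∀ l, x l = lam * x' l := fun l => congrFun hxx l
  have hc0 : ∀ c : k, Ge P 0 (algebraMap k L c) := fun c => Ge.const c
  have e1 := fun r => (ge_pl P hlam hlamP hxl (y := pc L p) r).mono h1
  have e2 := fun r => (ge_pl P hlam hlamP hxl (y := pc L q) r).mono h2
  apply hpq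
  funext r
  obtain ⟨l, m⟩ := r
  have h3 : Ge P 1 (algebraMap k L (pl p q (l, m))) := by
    have h4 : algebraMap k L (pl p q (l, m)) =
        algebraMap k L (q l) * pl x' (pc L p) (m, i1) -
          algebraMap k L (q m) * pl x' (pc L p) (l, i1) +
          algebraMap k L (p i1) * pl x' (pc L q) (l, m) := by
      simp only [pl, pc, map_sub, map_mul]
      rw [hi1]
      ring
    rw [h4]
    have e3 := fun c r => ((hc0 c).mul (e1 r)).mono (by omega : (1 : ℤ) ≤ 0 + 1)
    have e4 := fun c r => ((hc0 c).mul (e2 r)).mono (by omega : (1 : ℤ) ≤ 0 + 1)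
    exact ((e3 _ _).sub (e3 _ _)).add (e4 _ _)
  by_contra hne
  have h5 : pl p q (l, m) ≠ 0 := hne
  have h6 : algebraMap k L (pl p q (l, m)) ≠ 0 := (map_ne_zero _).2 h5
  have h7 := h3.resolve_left h6
  have h8 := P.ord_const (c := pl p q (l, m)) h5
  rw [h8] at h7
  omega

end

end Pool.Agent.H435.BL
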