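import Pool.Graph.R_seed8.Y735.LE.DerF
import Pool.Graph.R_seed8.Y741.LSetup

/-!
Relations between elements that are killed by derivations.
-/

set_option autoImplicit false

open MvPolynomial FF Pool.Agent.W603.LV Pool.Agent.W603.PV Pool.Agent.TH145.GH
open Pool.Agent.Y735 (cD coeff_cD cD_pderiv cD_X)
open Pool.Agent.Y735.LE (eq_C_of_pderiv totalDegree_pderiv_lt)

namespace Pool.Agent.H435.BL

section

variable {k L : Type} [Field k] [Field L] [Algebra k L]

theorem chain (δ : Derivation ℤ L L) (Y : Fin (1 + 1) → L) (G : MvPolynomial (Fin (1 + 1)) L) :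
    δ (eval Y G) = eval Y (cD δ G) + ∑ c, eval Y (pderiv c G) * δ (Y c) := by
  classical
  induction G using MvPolynomial.induction_on with
  | C a =>
    have h1 : cD δ (C a : MvPolynomial (Fin (1 + 1)) L) = C (δ a) := by
      ext u
      rw [coeff_cD, coeff_C, coeff_C]
      split_ifs
      · rfl
      · exact map_zero _
    rw [h1, eval_C, eval_C, Finset.sum_eq_zero fun c _ => by rw [pderiv_C, map_zero, zero_mul],
      add_zero]
  | add p q hp hq =>
    simp only [map_add, hp, hq, add_mul, Finset.sum_add_distrib]
    ring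
  | mul_X p i hp =>
    have h1 : ∀ c, eval Y (pderiv c (p * X i)) * δ (Y c) =
        Y i * (eval Y (pderiv c p) * δ (Y c)) + if c = i then eval Y p * δ (Y i) else 0 := by
      intro c
      rw [pderiv_mul, map_add, map_mul, map_mul, eval_X]
      split_ifs with h
      · subst h
        rw [pderiv_X_self, map_one]
        ring
      · rw [pderiv_X_of_ne fun h' => h h'.symm, map_zero]
        ring
    rw [map_mul, eval_X, δ.leibniz, (cD δ).leibniz, cD_X, Finset.sum_congr rfl fun c _ => h1 c,
      Finset.sum_add_distrib, ← Finset.mul_sum, Finset.sum_ite_eq' Finset.univ i,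
      if_pos (Finset.mem_univ i), hp]
    simp only [smul_eq_mul, map_mul, mul_zero, zero_add, eval_X]
    ring

/-- The coefficients of the polynomial are constants. -/
def Cc (k : Type) {L : Type} [Field k] [Field L] [Algebra k L]
    (G : MvPolynomial (Fin (1 + 1)) L) : Prop := ∀ u, ∃ c : k, G.coeff u = algebraMap k L c

theorem Cc.cD {G : MvPolynomial (Fin (1 + 1)) L} (h : Cc k G) {δ : Derivation ℤ L L}
    (hS : Sem k δ) : Cc k (Pool.Agent.Y735.cD δ G) := by
  intro u
  obtain ⟨c, hc⟩ := h u
  rw [coeff_cD, hc]
  exact hS c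

variable {δ : Fin (1 + 1) → Derivation ℤ L L} (hS : ∀ b, Sem k (δ b)) {q X : Fin (1 + 1) → L}
  (hq : ∀ b c, δ b (q c) = if b = c then 1 else 0) (hX : ∀ b c, δ b (X c) = 0)
  (hval : ∀ G, Cc k G → eval X G = 0 → eval q G = 0)

include hS hq hX hval

/-- All derivatives of the relations vanish. -/
theorem words (v : List (Fin (1 + 1))) : ∀ G, Cc k G → eval X G = 0 →
    eval q (v.foldr (fun c H => pderiv c H) G) = 0 := by
  induction v with
  | nil => exact hval
  | cons b v ih =>
    intro G hG hGX
    have hc : ∀ w : List (Fin (1 + 1)), cD (δ b) (w.foldr (fun c H => pderiv c H) G) =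
        w.foldr (fun c H => pderiv c H) (cD (δ b) G) := by
      intro w
      induction w with
      | nil => rfl
      | cons c w ihw =>
        rw [List.foldr_cons, List.foldr_cons, cD_pderiv, ihw]
    have h1 := chain (δ b) X G
    rw [hGX, map_zero, Finset.sum_eq_zero fun c _ => by rw [hX, mul_zero], add_zero] at h1
    have h2 := ih (cD (δ b) G) (hG.cD (hS b)) h1.symm
    have h3 := chain (δ b) q (v.foldr (fun c H => pderiv c H) G)
    rw [ih G hG hGX, map_zero, hc, h2, zero_add, Finset.sum_eq_single b (fun c _ hcb => by
      rw [hq, if_neg fun h => hcb h.symm, mul_zero]) fun h => absurd (Finset.mem_univ b) h,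
      hq, if_pos rfl, mul_one] at h3
    exact h3.symm

omit hS hq hX hval in
/-- A polynomial all of whose derivatives vanish at a point is zero. -/
theorem zero_of_words [CharZero L] (d : ℕ) : ∀ H : MvPolynomial (Fin (1 + 1)) L,
    H.totalDegree < d + 1 → (∀ v : List (Fin (1 + 1)),
      eval q (v.foldr (fun c H => pderiv c H) H) = 0) → H = 0 := by
  induction d with
  | zero =>
    intro H hH hv
    have h1 : ∀ c, pderiv c H = 0 := by
      intro c
      by_contra hne
      have := totalDegree_pderiv_lt H c hne
      omega
    have h2 := eq_C_of_pderiv H h1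
    have h3 := hv []
    rw [List.foldr_nil, h2, eval_C] at h3
    rw [h2, h3, map_zero]
  | succ d ih =>
    intro H hH hv
    have h1 : ∀ c, pderiv c H = 0 := by
      intro c
      by_contra hne
      refine hne (ih _ ?_ fun v => ?_)
      · have := totalDegree_pderiv_lt H c hne
        omega
      · have h2 := hv (v ++ [c])
        rw [List.foldr_append] at h2
        exact h2
    have h2 := eq_C_of_pderiv H h1
    have h3 := hv []
    rw [List.foldr_nil, h2, eval_C] at h3
    rw [h2, h3, map_zero]

/-- There are no relations. -/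
theorem no_rel [CharZero L] {G : MvPolynomial (Fin (1 + 1)) L} (hG : Cc k G)
    (hGX : eval X G = 0) : G = 0 :=
  zero_of_words (q := q) G.totalDegree G (Nat.lt_succ_self _)
    fun v => words hS hq hX hval v G hG hGX

end

end Pool.Agent.H435.BL
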