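import Pool.Agent.H435.BL.Dec
import Pool.Agent.H435.BL.Desc

/-!
The degree of a curve that is not tangent to a deformation, and its multiplicities at constant
points.
-/

set_option autoImplicit false
set_option linter.unusedSectionVars false
set_option linter.unusedSimpArgs false

open MvPolynomial FF Pool.Agent.W603.LV Pool.Agent.W603.PV Pool.Agent.TH145.GH
open Pool.Agent.Y735 (vol vol_apply pl po po_le exists_po fht po_finite)
open Pool.Agent.W602.GT Pool.Agent.TH145.GF

namespace Pool.Agent.H435.BL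

open Pool.Agent.Y741
open Pool.Agent.H435.VG (ge_po le_po fs_le fin_mul fin_add fin_sum)

section

variable {k L : Type} [Field k] [Field L] [Algebra k L] [IsAlgClosed k] [CharZero k] [IsFF k L]
  {n : ℕ} {A : Type} [DecidableEq A] [Fintype A]
  {F : Fam L n A} {dg : A → ℕ} {D : A → (Fin (n + 1) →₀ ℕ) → Derivation ℤ L L}

theorem der_mem_TC {E : Derivation ℤ L L} (hEF : ∀ a u, E ((F a).coeff u) = 0)
    {x : Fin (n + 1) → L} (hxC : ∀ a, eval x (F a) = 0) :
    (fun l => E (x l)) ∈ TC F Finset.univ x := by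
  intro c _
  have h3 := Pool.Agent.TH145.GE.dF_ev (E := E) (G := F c) (hEF c) x
  rw [hxC, map_zero] at h3
  exact h3

/-- The multiplicities at a place are not negative. -/
theorem mult_nonneg (P : Place k L) {x : Fin (n + 1) → L} {p : Fin (n + 1) → k}
    (hpl : pl x (pc L p) ≠ 0) : 0 ≤ po P (pl x (pc L p)) - pord P x := by
  have hc0 : ∀ c : k, Ge P 0 (algebraMap k L c) := fun c => Ge.const c
  have h1 := le_po P hpl (c := pord P x) fun q => by
    have h2 := fun l m => ((ge_pord P x l).mul (hc0 (p m))).mono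
      (by omega : pord P x ≤ pord P x + 0)
    exact (h2 _ _).sub (h2 _ _)
  linarith

theorem thmA (hF : ∀ a, (F a).IsHomogeneous (dg a)) (hdg : ∀ a, 0 < dg a)
    (hD : TH145.GC.Dual F dg D) (hS : ∀ a I, Sem k (D a I))
    (hFk : ∀ a u, ∃ c : k, (F a).coeff u = algebraMap k L c) (hn : n = Fintype.card A + 2)
    (V : A ⊕ Fin 3 ≃ Fin (n + 1)) {δ : Derivation k L L} (hδ : δ ≠ 0)
    {x : Fin (n + 1) → L} (hxC : ∀ a, eval x (F a) = 0) {a0 : Fin (n + 1)} (ha0 : x a0 = 1)
    {Db : Derivation ℤ L L} (hDS : Sem k Db) (hDF : ∀ a u, Db ((F a).coeff u) = 0)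
    (hV : vol V (Rr dg D x a0 (fun l => δ (x l)) (fun l => Db (x l))) ≠ 0)
    {J : Type} (s : Finset J) {p : J → Fin (n + 1) → k} (hp1 : ∀ j ∈ s, ∃ i, p j i = 1)
    (hpD : ∀ j ∈ s, ∀ l, Db (algebraMap k L (p j l)) = 0)
    (hdist : ∀ j ∈ s, ∀ j' ∈ s, j ≠ j' → pl (p j) (p j') ≠ 0)
    (hpl : ∀ j, pl x (pc L (p j)) ≠ 0) :
    (((∑ a, dg a : ℕ) : ℤ) - n - 1) * pht k x +
      ∑ j ∈ s, (pht k x - fht k (pl x (pc L (p j)))) ≤ canDeg k L := by
  classical
  have hx0 : x ≠ 0 := by
    rintro rfl
    exact zero_ne_one ha0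
  have f1 : {P : Place k L | pord P x ≠ 0}.Finite := pord_finite (k := k) (Function.ne_iff.1 hx0)
  have f2 := vo_finite (k := k) hδ
  have f3 : ∀ j, {P : Place k L | po P (pl x (pc L (p j))) + (-1) * pord P x ≠ 0}.Finite :=
    fun j => fin_add (po_finite (k := k) (hpl j)) (fin_mul f1 (-1))
  obtain ⟨S, hSd⟩ : ∃ S : ℤ, S = (n : ℤ) + 1 - ((∑ a, dg a : ℕ) : ℤ) := ⟨_, rfl⟩
  have h1 := fs_le (k := k) (A := fun P => S * pord P x + vo P δ +
    ∑ j ∈ s, (po P (pl x (pc L (p j))) + (-1) * pord P x))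
    (fin_add (fin_add (fin_mul f1 S) f2) (fin_sum s f3))
    (g := vol V (Rr dg D x a0 (fun l => δ (x l)) (fun l => Db (x l)))) fun P => by
      have hm := fun j => mult_nonneg P (hpl j)
      have key : ∀ e : ℤ, (∃ (w0 : Fin (n + 1) → L) (α β : L), (fun l => Db (x l)) =
          w0 + α • x + β • (fun l => δ (x l)) ∧ ∀ l, Ge P (pord P x + e) (w0 l)) →
          ∑ j ∈ s, (po P (pl x (pc L (p j))) + (-1) * pord P x) = e →
          S * pord P x + vo P δ + ∑ j ∈ s, (po P (pl x (pc L (p j))) + (-1) * pord P x) ≤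
          P.ord (vol V (Rr dg D x a0 (fun l => δ (x l)) (fun l => Db (x l)))) := by
        rintro e ⟨w0, α, β, h2, h3⟩ h4
        have h5 := ge_vol hF hdg hD hS hFk hn V hδ P hxC ha0 (der_mem_TC hDF hxC) h2 h3
        rw [h4, hSd]
        exact h5.resolve_left hV
      by_cases h : ∃ j ∈ s, 1 ≤ po P (pl x (pc L (p j))) - pord P x
      · obtain ⟨j, hj, hjP⟩ := h
        obtain ⟨e, he⟩ := Int.eq_ofNat_of_zero_le (hm j)
        obtain ⟨i, hi⟩ := hp1 j hj
        refine key e (dec1 P hDS hδ hx0 hi (hpD j hj) (by omega) he.symm) ?_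
        rw [Finset.sum_eq_single_of_mem j hj fun j' hj' hne => by
          have h2 : ¬ (1 ≤ po P (pl x (pc L (p j'))) - pord P x) := fun h3 =>
            excl P hx0 (hdist j' hj' j hj hne) h3 hjP
          have h3 := hm j'
          omega]
        omega
      · push Not at h
        refine key 0 (dec0 P hDS hδ hx0) (Finset.sum_eq_zero fun j hj => ?_)
        have h2 := h j hj
        have h3 := hm j
        omega
  rw [finsum_add_distrib (fin_add (fin_mul f1 S) f2) (fin_sum s f3),
    finsum_add_distrib (fin_mul f1 S) f2, ← mul_finsum _ S,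
    finsum_sum_comm s _ (fun j _ => f3 j),
    Finset.sum_congr rfl fun j _ => finsum_add_distrib (po_finite (k := k) (hpl j))
      (fin_mul f1 (-1)), Finset.sum_congr rfl fun j _ => by rw [← mul_finsum _ (-1)]] at h1
  have h2 : ∑ᶠ P : Place k L, pord P x = -pht k x := by
    unfold pht
    ring
  have h3 : ∑ᶠ P : Place k L, vo P δ = -canDeg k L := by
    rw [canDeg_eq hδ]
    ring
  have h4 : ∀ j, ∑ᶠ P : Place k L, po P (pl x (pc L (p j))) = -fht k (pl x (pc L (p j))) := by
    intro j
    unfold fht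
    ring
  rw [h2, h3] at h1
  have h5 : ∑ j ∈ s, (∑ᶠ P : Place k L, po P (pl x (pc L (p j))) + -1 * -pht k x) =
      ∑ j ∈ s, (pht k x - fht k (pl x (pc L (p j)))) :=
    Finset.sum_congr rfl fun j _ => by rw [h4]; ring
  rw [h5, hSd] at h1
  linarith

/-- A place over a generic point: some deformation is not tangent to the curve. -/
theorem exists_vol (hF : ∀ a, (F a).IsHomogeneous (dg a))
    (hD : TH145.GC.Dual F dg D)
    (hFk : ∀ a u, ∃ c : k, (F a).coeff u = algebraMap k L c) (hn : n = Fintype.card A + 2)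
    (V : A ⊕ Fin 3 ≃ Fin (n + 1)) {δ : Derivation k L L}
    {x : Fin (n + 1) → L} (hxC : ∀ a, eval x (F a) = 0) {a0 l0 : Fin (n + 1)} (ha0 : x a0 = 1)
    (hl0 : δ (x l0) ≠ 0)
    {Db : Fin (1 + 1) → Derivation ℤ L L} (hDS : ∀ b, Sem k (Db b))
    (hDF : ∀ b a u, Db b ((F a).coeff u) = 0) {p : Fin (n + 1) → k} (hpa : p a0 = 1)
    {m : Fin (1 + 1) → Fin (n + 1)}
    (hdu : ∀ b c, Db b (algebraMap k L (p (m c))) = if b = c then 1 else 0)
    (P : Place k L) (hP : 1 ≤ po P (pl x (pc L p)) - pord P x) :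
    ∃ b, vol V (Rr dg D x a0 (fun l => δ (x l)) (fun l => Db b (x l))) ≠ 0 := by
  classical
  have hLz : CharZero L := charZero_of_injective_algebraMap (algebraMap k L).injective
  by_contra hcon
  push Not at hcon
  have hx0 : x ≠ 0 := by
    rintro rfl
    exact zero_ne_one ha0
  have hδT : (fun l => δ (x l)) ∈ TC F Finset.univ x :=
    der_mem_TC (E := δ.restrictScalars ℤ) (fun a u => by
      obtain ⟨r, hr⟩ := hFk a u
      rw [hr]
      exact δ.map_algebraMap r) hxC
  have hind : LinearIndependent L ![x, fun l => δ (x l)] := by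
    rw [LinearIndependent.pair_iff]
    intro s r hsr
    have h1 := congrFun hsr a0
    have h2 := congrFun hsr l0
    change s * x a0 + r * δ (x a0) = 0 at h1
    change s * x l0 + r * δ (x l0) = 0 at h2
    rw [ha0, δ.map_one_eq_zero, mul_zero, add_zero, mul_one] at h1
    rw [h1, zero_mul, zero_add] at h2
    exact ⟨h1, (mul_eq_zero.1 h2).resolve_right hl0⟩
  have h1 : ∀ b, ∃ r : L, ∀ l, Db b (x l) = r * δ (x l) := by
    intro b
    have h2 := mem_of_zero hF hD hxC hn V ha0 hδT (der_mem_TC (hDF b) hxC) hind (hcon b)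
    rw [Matrix.range_cons, Matrix.range_cons, Matrix.range_empty, Set.union_empty,
      Set.singleton_union, Submodule.mem_span_pair] at h2
    obtain ⟨s, r, h3⟩ := h2
    have h4 : ∀ l, s * x l + r * δ (x l) = Db b (x l) := fun l => congrFun h3 l
    have h5 := h4 a0
    rw [ha0, δ.map_one_eq_zero, (Db b).map_one_eq_zero, mul_zero, add_zero, mul_one] at h5
    exact ⟨r, fun l => by rw [← h4, h5, zero_mul, zero_add]⟩
  choose r hr using h1
  obtain ⟨E, hE⟩ : ∃ E : Fin (1 + 1) → Derivation ℤ L L, ∀ b f, E b f = Db b f - r b * δ f :=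
    ⟨fun b => Db b - (r b • δ).restrictScalars ℤ, fun b f => by simp⟩
  have hES : ∀ b, Sem k (E b) := fun b c => by
    obtain ⟨c', hc'⟩ := hDS b c
    exact ⟨c', by rw [hE, hc', δ.map_algebraMap, mul_zero, sub_zero]⟩
  have hEq : ∀ b c, E b (algebraMap k L (p (m c))) = if b = c then 1 else 0 := fun b c => by
    rw [hE, hdu, δ.map_algebraMap, mul_zero, sub_zero]
  have hEX : ∀ b c, E b (x (m c)) = 0 := fun b c => by
    rw [hE, hr, sub_self]
  -- the values of the coordinates at the place
  have hval0 : ∀ l, Ge P 1 (x l - algebraMap k L (p l)) := by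
    obtain ⟨lam, x', hlam, hlamP, hxx, hx', i1, hi1⟩ := exists_scaled P hx0
    have hxl : ∀ l, x l = lam * x' l := fun l => congrFun hxx l
    have hc0 : ∀ c : k, Ge P 0 (algebraMap k L c) := fun c => Ge.const c
    have hye : ∀ l, Ge P 1 (x' l - x' a0 * algebraMap k L (p l)) := fun l => by
      have h1 := (ge_pl P hlam hlamP hxl (y := pc L p) (l, a0)).mono hP
      have h2 : pl x' (pc L p) (l, a0) = x' l - x' a0 * algebraMap k L (p l) := by
        simp only [pl, pc]
        rw [hpa, map_one, mul_one]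
      rwa [h2] at h1
    have hxs : ¬ Ge P 1 (x' a0) := by
      intro h1
      have h2 := (hye i1).add ((h1.mul (hc0 (p i1))))
      rw [hi1, sub_add_cancel] at h2
      rcases h2 with h2 | h2
      · exact one_ne_zero h2
      · rw [P.ord_one] at h2
        omega
    have hxs0 : x' a0 ≠ 0 := fun h => hxs (Or.inl h)
    have hxsP : P.ord (x' a0) = 0 := by
      have h1 := (hx' a0).resolve_left hxs0
      have h2 : ¬ (1 ≤ P.ord (x' a0)) := fun h => hxs (Or.inr h)
      omega
    have hinv : Ge P 0 (x' a0)⁻¹ := by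
      right
      rw [P.ord_inv, hxsP, neg_zero]
    intro l
    have h3 : x l - algebraMap k L (p l) =
        (x' a0)⁻¹ * (x' l - x' a0 * algebraMap k L (p l)) := by
      have h4 : lam * x' a0 = 1 := by rw [← hxl, ha0]
      have h5 : (x' a0)⁻¹ = lam := by
        rw [inv_eq_iff_eq_inv]
        exact eq_inv_of_mul_eq_one_right h4
      rw [h5, hxl, mul_sub, ← mul_assoc, h4, one_mul]
    rw [h3]
    exact (hinv.mul (hye l)).mono (by omega)
  obtain ⟨X, hX⟩ : ∃ X : Fin (1 + 1) → L, X = fun c => x (m c) := ⟨_, rfl⟩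
  obtain ⟨q, hq⟩ : ∃ q : Fin (1 + 1) → k, q = fun c => p (m c) := ⟨_, rfl⟩
  have hXq : ∀ c, Ge P 1 (X c - algebraMap k L (q c)) := fun c => by
    rw [hX, hq]
    exact hval0 _
  have hX0 : ∀ c, Ge P 0 (X c) := fun c => by
    have h2 := ((hXq c).mono (by omega : (0 : ℤ) ≤ 1)).add (Ge.const (P := P) (q c))
    rwa [sub_add_cancel] at h2
  have hev : ∀ G : MvPolynomial (Fin (1 + 1)) k, Ge P 0 (aeval X G) ∧
      Ge P 1 (aeval X G - algebraMap k L (eval q G)) := by
    intro G
    induction G using MvPolynomial.induction_on with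
    | C a =>
      rw [aeval_C, eval_C, sub_self]
      exact ⟨Ge.const a, Ge.zero⟩
    | add g h hg hh =>
      rw [map_add, map_add, map_add]
      refine ⟨hg.1.add hh.1, ?_⟩
      have h2 := hg.2.add hh.2
      have h3 : aeval X g - algebraMap k L (eval q g) + (aeval X h - algebraMap k L (eval q h)) =
          aeval X g + aeval X h - (algebraMap k L (eval q g) + algebraMap k L (eval q h)) := by
        ring
      rwa [h3] at h2
    | mul_X g i hg =>
      rw [map_mul, map_mul, aeval_X, eval_X, map_mul]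
      refine ⟨(hg.1.mul (hX0 i)).mono (by omega), ?_⟩
      have h3 : aeval X g * X i - algebraMap k L (eval q g) * algebraMap k L (q i) =
          aeval X g * (X i - algebraMap k L (q i)) +
            (aeval X g - algebraMap k L (eval q g)) * algebraMap k L (q i) := by ring
      rw [h3]
      exact ((hg.1.mul (hXq i)).mono (by omega)).add
        ((hg.2.mul (Ge.const (P := P) (q i))).mono (by omega))
  have hzero : ∀ G : MvPolynomial (Fin (1 + 1)) k, aeval X G = 0 → eval q G = 0 := by
    intro G hG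
    have h2 := (hev G).2
    rw [hG, zero_sub] at h2
    by_contra hne
    have h3 := h2.resolve_left (neg_ne_zero.2 ((map_ne_zero _).2 hne))
    rw [P.ord_neg] at h3
    have h4 := P.ord_const (c := eval q G) hne
    rw [h4] at h3
    omega
  have hCc : ∀ G : MvPolynomial (Fin (1 + 1)) L, Cc k G → ∃ G0 : MvPolynomial (Fin (1 + 1)) k,
      G = map (algebraMap k L) G0 := by
    intro G hG
    choose c hc using hG
    refine ⟨∑ u ∈ G.support, monomial u (c u), ?_⟩
    rw [map_sum]
    conv_lhs => rw [G.as_sum]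
    exact Finset.sum_congr rfl fun u _ => by rw [MvPolynomial.map_monomial, hc]
  have hno : ∀ G : MvPolynomial (Fin (1 + 1)) k, aeval X G = 0 → G = 0 := by
    intro G hG
    have h2 := no_rel (k := k) hES (q := fun c => algebraMap k L (q c)) (X := X)
      (fun b c => by rw [hq]; exact hEq b c) (fun b c => by rw [hX]; exact hEX b c)
      (fun H hH hHX => by
        obtain ⟨G0, rfl⟩ := hCc H hH
        rw [eval_map] at hHX
        have h3 := hzero G0 hHX
        have h4 : eval (fun c => algebraMap k L (q c)) (map (algebraMap k L) G0) =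
            algebraMap k L (eval q G0) := by
          rw [eval_map]
          exact (MvPolynomial.eval₂_comp_left (algebraMap k L) (RingHom.id k) q G0).symm
        rw [h4, h3, map_zero])
      (G := map (algebraMap k L) G) (fun u => ⟨G.coeff u, coeff_map _ _ _⟩)
      (by rw [eval_map]; exact hG)
    exact (MvPolynomial.map_injective _ (algebraMap k L).injective) (by rw [h2, map_zero])
  have hai : AlgebraicIndependent k X := algebraicIndependent_iff.2 hno
  have hFF : IsFF k L := inferInstance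
  have h2 := hai.cardinalMk_le_trdeg
  rw [hFF.trdeg, Cardinal.mk_fin] at h2
  have h3 : ((1 + 1 : ℕ) : Cardinal) ≤ ((1 : ℕ) : Cardinal) := by
    rw [Nat.cast_one]
    exact h2
  have h4 := Nat.cast_le.1 h3
  omega

end

end Pool.Agent.H435.BL
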