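import Pool.Agent.H435.BL.Deg
import Pool.Agent.H435.CV.Top

/-!
The degrees of the curves and their multiplicities at generic points.
-/

set_option autoImplicit false
set_option linter.unusedSectionVars false
set_option linter.unusedSimpArgs false

open MvPolynomial FF Pool.Agent.W603.LV Pool.Agent.W603.PV Pool.Agent.TH145.GH
open Pool.Agent.Y735 (vol vol_apply pl po po_le exists_po fht po_finite fht_nonneg)
open Pool.Agent.W602.GT Pool.Agent.TH145.GF
open Pool.Agent.TH145.GC (Cf)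

namespace Pool.Agent.H435.BL

open Pool.Agent.Y741
open Pool.Agent.H435.VG (ge_po le_po fs_le fin_mul fin_add fin_sum)

section

variable {k L : Type} [Field k] [Field L] [Algebra k L] [IsAlgClosed k] [CharZero k] [IsFF k L]
  {n : ℕ} {A : Type} [Fintype A] {dg : A → ℕ}

theorem fht_scale {ι : Type} [Finite ι] {f : ι → L} (hf : f ≠ 0) {c : L} (hc : c ≠ 0) :
    fht k (fun j => c * f j) = fht k f := by
  unfold fht
  have h1 : (fun P : Place k L => po P (fun j => c * f j)) = fun P => P.ord c + po P f := by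
    funext P
    exact po_scale P hf hc
  rw [h1, finsum_add_distrib (finite_support (k := k) c) (po_finite hf), sum_ord, zero_add]

/-- The multiplicity is not negative. -/
theorem pos_mult {x : Fin (n + 1) → L} (hx0 : x ≠ 0) {p : Fin (n + 1) → k}
    (hpl : pl x (pc L p) ≠ 0) : 0 ≤ pht k x - fht k (pl x (pc L p)) := by
  have f1 : {P : Place k L | pord P x ≠ 0}.Finite := pord_finite (k := k) (Function.ne_iff.1 hx0)
  have h1 : 0 ≤ ∑ᶠ P : Place k L, (po P (pl x (pc L p)) + (-1) * pord P x) :=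
    finsum_nonneg fun P => by
      have := mult_nonneg P hpl
      linarith
  rw [finsum_add_distrib (po_finite (k := k) hpl) (fin_mul f1 (-1)), ← mul_finsum _ (-1)] at h1
  unfold pht fht
  linarith

/-- The inequality at a curve through a generic point. -/
theorem core (hn : n = Fintype.card A + 2) (hdg : ∀ a, 2 ≤ dg a)
    {G : A → MvPolynomial (Fin (n + 1)) k} (hG : ∀ a, (G a).IsHomogeneous (dg a))
    (hgen : AlgebraicIndependent ℚ fun p : Cf n dg => (G p.1).coeff p.2.1)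
    {x : Fin (n + 1) → L} {a0 l0 : Fin (n + 1)} (ha0 : x a0 = 1)
    (hl0 : Transcendental k (x l0)) (hx : ∀ a, aeval x (G a) = 0)
    {J : Type} (s : Finset J) {p : J → Fin (n + 1) → k} (hp1 : ∀ j ∈ s, ∃ i, p j i = 1)
    {k0 : Type} [Field k0] [Algebra k0 k]
    (hkG : ∀ a u, ∃ r : k0, (G a).coeff u = algebraMap k0 k r)
    (hkp : ∀ j ∈ s, ∀ l, ∃ r : k0, p j l = algebraMap k0 k r)
    (hdist : ∀ j ∈ s, ∀ j' ∈ s, j ≠ j' → pl (p j) (p j') ≠ 0)
    (hpl : ∀ j, pl x (pc L (p j)) ≠ 0)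
    {o : Fin (n + 1) → k} (hoa : o a0 = 1) {m : Fin (1 + 1) → Fin (n + 1)}
    (hind : AlgebraicIndependent k0 fun c => o (m c))
    (P : Place k L) (hP : 1 ≤ po P (pl x (pc L o)) - pord P x) :
    (((∑ a, dg a : ℕ) : ℤ) - n - 1) * pht k x +
      ∑ j ∈ s, (pht k x - fht k (pl x (pc L (p j)))) ≤ canDeg k L := by
  classical
  have hpos : ∀ a, 0 < dg a := fun a => by have := hdg a; omega
  obtain ⟨F, hFG⟩ : ∃ F : Fam L n A, ∀ a, F a = map (algebraMap k L) (G a) := ⟨_, fun _ => rfl⟩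
  have hFeq : (fun a => map (algebraMap k L) (G a)) = F := (funext hFG).symm
  have hF : ∀ a, (F a).IsHomogeneous (dg a) := fun a => by
    rw [hFG]
    exact (hG a).map _
  have hxC : ∀ a, eval x (F a) = 0 := fun a => by
    rw [hFG, eval_map]
    exact hx a
  have hFk : ∀ a u, ∃ c : k, (F a).coeff u = algebraMap k L c := fun a u => by
    rw [hFG, coeff_map]
    exact ⟨_, rfl⟩
  obtain ⟨δ, hδ⟩ := exists_der (k := k) (K := L)
  have hδl := der_ne_zero hδ hl0
  have ht : IsTranscendenceBasis k (fun _ : Unit => x l0) := IsFF.basis hl0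
  obtain ⟨D, hD, hS, -⟩ := exists_duals_L ht G hgen
  rw [hFeq] at hD
  let _ : Algebra k0 L := ((algebraMap k L).comp (algebraMap k0 k)).toAlgebra
  have hst : IsScalarTower k0 k L := IsScalarTower.of_algebraMap_eq fun _ => rfl
  obtain ⟨D', hDS, hDdu, -⟩ := exists_dualsC ht (fun c => o (m c)) hind
  have hk0 : ∀ b (r : k0), (D' b).restrictScalars ℤ (algebraMap k L (algebraMap k0 k r)) = 0 :=
    fun b r => (D' b).map_algebraMap r
  have hDF : ∀ b a u, (D' b).restrictScalars ℤ ((F a).coeff u) = 0 := fun b a u => by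
    obtain ⟨r, hr⟩ := hkG a u
    rw [hFG, coeff_map, hr]
    exact hk0 b r
  have hEc : Fintype.card (A ⊕ Fin 3) = Fintype.card (Fin (n + 1)) := by
    simp only [Fintype.card_sum, Fintype.card_fin]
    omega
  obtain ⟨V⟩ : Nonempty (A ⊕ Fin 3 ≃ Fin (n + 1)) := Fintype.card_eq.1 hEc
  obtain ⟨b, hb⟩ := exists_vol hF hD hFk hn V hxC ha0 hδl hDS hDF hoa
    (fun b c => (hDdu b c).trans (by congr)) P hP
  exact thmA hF hpos hD hS hFk hn V hδ hxC ha0 (hDS b) (hDF b) hb s hp1
    (fun j hj l => by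
      obtain ⟨r, hr⟩ := hkp j hj l
      rw [hr]
      exact hk0 b r) hdist hpl

/-- The points are generic: two of the ratios of the coordinates of each of them are independent
over the field that is generated by the coefficients and the ratios of the coordinates of the
others. -/
def Gen {k : Type} [Field k] [CharZero k] {n : ℕ} {A J : Type}
    (G : A → MvPolynomial (Fin (n + 1)) k) (p : J → Fin (n + 1) → k) : Prop :=
  ∀ i, ∃ a b c, p i c ≠ 0 ∧ AlgebraicIndependent
    (IntermediateField.adjoin ℚ ({r | ∃ a u, r = (G a).coeff u} ∪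
      {r | ∃ j, j ≠ i ∧ ∃ u v, r = p j u / p j v})) ![p i a / p i c, p i b / p i c]

/-- The degree and the multiplicities at generic points. -/
theorem main (hn : n = Fintype.card A + 2) (hdg : ∀ a, 2 ≤ dg a) (hsum : n + 2 ≤ ∑ a, dg a)
    {G : A → MvPolynomial (Fin (n + 1)) k} (hG : ∀ a, (G a).IsHomogeneous (dg a))
    (hgen : AlgebraicIndependent ℚ fun p : Cf n dg => (G p.1).coeff p.2.1)
    {x : Fin (n + 1) → L} {a b : Fin (n + 1)} (hb : x b ≠ 0)
    (hab : Transcendental k (x a / x b)) (hx : ∀ a, aeval x (G a) = 0)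
    {J : Type} [Fintype J] {p : J → Fin (n + 1) → k} (hp : Gen G p) :
    (((∑ a, dg a : ℕ) : ℤ) - n - 1) * pht k x +
      ∑ j, (pht k x - fht k (pl x (pc L (p j)))) ≤ 2 * canDeg k L ∧
    (((∑ a, dg a : ℕ) : ℤ) - n - 2) * ((((∑ a, dg a : ℕ) : ℤ) - n - 1) * pht k x +
      ∑ j, (pht k x - fht k (pl x (pc L (p j))))) ≤
        (((∑ a, dg a : ℕ) : ℤ) - n - 1) * canDeg k L ∧
    ((2 * n ≤ ∑ a with dg a ≤ 4, (dg a + 1) + 1 ∨ Fintype.card A = 1) →
      (((∑ a, dg a : ℕ) : ℤ) - n - 1) * ((((∑ a, dg a : ℕ) : ℤ) - n - 1) * pht k x +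
        ∑ j, (pht k x - fht k (pl x (pc L (p j))))) ≤
          (((∑ a, dg a : ℕ) : ℤ) - n) * canDeg k L) := by
  classical
  have hx0 : x ≠ 0 := fun h => hb (congrFun h b)
  choose ca cb cc hcc hci using hp
  -- the point is not constant
  have hpl : ∀ j, pl x (pc L (p j)) ≠ 0 := by
    intro j h0
    have h1 : ∀ l m, x l * algebraMap k L (p j m) = x m * algebraMap k L (p j l) := fun l m =>
      sub_eq_zero.1 (congrFun h0 (l, m))
    have h2 : algebraMap k L (p j (cc j)) ≠ 0 := (map_ne_zero _).2 (hcc j)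
    have h3 : algebraMap k L (p j b) ≠ 0 := by
      intro h3
      have h4 := h1 b (cc j)
      rw [h3, mul_zero] at h4
      exact mul_ne_zero hb h2 h4
    have h4 : x a / x b = algebraMap k L (p j a / p j b) := by
      rw [map_div₀, div_eq_div_iff hb h3, h1 a b, mul_comm]
    exact hab (by rw [h4]; exact isAlgebraic_algebraMap _)
  have hpos : ∀ j, 0 ≤ pht k x - fht k (pl x (pc L (p j))) := fun j => pos_mult hx0 (hpl j)
  have hp0 : 0 ≤ pht k x := by
    rw [← Pool.Agent.Y735.fht_fin]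
    exact fht_nonneg hx0
  obtain ⟨S, hSd⟩ : ∃ S : ℤ, S = ((∑ a, dg a : ℕ) : ℤ) := ⟨_, rfl⟩
  have hS2 : (n : ℤ) + 2 ≤ S := by
    rw [hSd]
    exact_mod_cast hsum
  obtain ⟨m0, m1, m2⟩ := CV.main2 (k0 := ℚ) hn hdg hsum hG hgen hb hab hx
  by_cases hex : ∃ i, ∃ P : Place k L, 1 ≤ po P (pl x (pc L (p i))) - pord P x
  swap
  · have h1 : ∀ j, pht k x - fht k (pl x (pc L (p j))) = 0 := by
      intro j
      have h2 : ∀ P : Place k L, po P (pl x (pc L (p j))) = pord P x := by
        intro P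
        have h3 := mult_nonneg P (hpl j)
        have h4 : ¬ (1 ≤ po P (pl x (pc L (p j))) - pord P x) := fun h => hex ⟨j, P, h⟩
        omega
      unfold pht fht
      rw [finsum_congr h2]
      ring
    rw [Finset.sum_eq_zero fun j _ => h1 j, add_zero]
    rw [← hSd] at m0 m1 m2 ⊢
    obtain ⟨H, hH⟩ : ∃ H, H = pht k x := ⟨_, rfl⟩
    obtain ⟨N, hN⟩ : ∃ N, N = canDeg k L := ⟨_, rfl⟩
    obtain ⟨c, hc⟩ : ∃ c, c = S - n - 1 := ⟨_, rfl⟩
    have hc1 : 1 ≤ c := by omega
    have hc2 : S - n - 2 = c - 1 := by omega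
    have hc3 : S - n = c + 1 := by omega
    have hc4 : 2 * S - 2 * n - 3 = 2 * c - 1 := by omega
    rw [hc2] at m1 ⊢
    rw [← hc] at m2 ⊢
    rw [hc3]
    rw [hc4] at m0
    rw [← hH, ← hN] at m0 m1 m2 ⊢
    rw [← hH] at hp0
    refine ⟨m2, by nlinarith, fun h => ?_⟩
    have m3 := m0 h
    have m4 : (c + 1) * ((2 * c - 1) * H) ≤ (c + 1) * (2 * N) :=
      mul_le_mul_of_nonneg_left m3 (by linarith)
    have m5 : 0 ≤ (c - 1) * H := mul_nonneg (by linarith) hp0
    nlinarith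
  obtain ⟨i, P, hP⟩ := hex
  have hcp : ∀ j, pl x (pc L (p j)) ≠ 0 := hpl
  -- normalisation
  have hxa : x (cc i) ≠ 0 := by
    intro h0
    have h1 : po P (pl x (pc L (p i))) ≤ pord P x := by
      refine le_po P hx0 fun l => ?_
      have h2 := ge_po P (pl x (pc L (p i))) (l, cc i)
      simp only [pl, pc] at h2
      rw [h0, zero_mul, sub_zero] at h2
      have h3 : algebraMap k L (p i (cc i)) ≠ 0 := (map_ne_zero _).2 (hcc i)
      have h4 : Ge P 0 (algebraMap k L (p i (cc i)))⁻¹ := by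
        rw [← map_inv₀]
        exact Ge.const _
      have h5 := h2.mul h4
      rw [mul_assoc, mul_inv_cancel₀ h3, mul_one, add_zero] at h5
      exact h5
    omega
  obtain ⟨x', hx'⟩ : ∃ x' : Fin (n + 1) → L, x' = fun l => (x (cc i))⁻¹ * x l := ⟨_, rfl⟩
  obtain ⟨p', hp'⟩ : ∃ p' : J → Fin (n + 1) → k, ∀ j l, p' j l = p j l / p j (cc j) :=
    ⟨_, fun _ _ => rfl⟩
  have hplx : ∀ j, pl x' (pc L (p' j)) = fun q =>
      ((x (cc i))⁻¹ * (algebraMap k L (p j (cc j)))⁻¹) * pl x (pc L (p j)) q := by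
    intro j
    funext q
    simp only [pl, pc]
    rw [hx', hp', hp', map_div₀, map_div₀]
    ring
  have hc0 : ∀ j, (x (cc i))⁻¹ * (algebraMap k L (p j (cc j)))⁻¹ ≠ 0 := fun j =>
    mul_ne_zero (inv_ne_zero hxa) (inv_ne_zero ((map_ne_zero _).2 (hcc j)))
  have hf' : ∀ j, fht k (pl x' (pc L (p' j))) = fht k (pl x (pc L (p j))) := fun j => by
    rw [hplx]
    exact fht_scale (hpl j) (hc0 j)
  have hxx : pht k x' = pht k x := by
    rw [hx']
    exact pht_scale ⟨b, hb⟩ (inv_ne_zero hxa)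
  have hpord : pord P x' = P.ord (x (cc i))⁻¹ + pord P x := by
    rw [hx']
    exact pord_scale P ⟨b, hb⟩ (inv_ne_zero hxa)
  have hP' : 1 ≤ po P (pl x' (pc L (p' i))) - pord P x' := by
    rw [hplx, po_scale P (hpl i) (hc0 i), hpord,
      P.ord_mul (inv_ne_zero hxa) (inv_ne_zero ((map_ne_zero _).2 (hcc i))), P.ord_inv,
      P.ord_inv, P.ord_const (hcc i)]
    rw [neg_zero]
    linarith
  have hpl' : ∀ j, pl x' (pc L (p' j)) ≠ 0 := by
    intro j h0
    apply hpl j
    funext q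
    have h1 := congrFun h0 q
    rw [hplx] at h1
    exact (mul_eq_zero.1 h1).resolve_left (hc0 j)
  obtain ⟨l0, hl0⟩ : ∃ l0, Transcendental k (x' l0) := by
    by_contra hcon
    push Not at hcon
    have h1 : ∀ l, IsAlgebraic k (x' l) := fun l => by
      have h2 := hcon l
      rwa [Transcendental, not_not] at h2
    have h2 : x a / x b = x' a / x' b := by
      rw [hx']
      field_simp
    apply hab
    rw [h2, div_eq_mul_inv]
    exact (h1 a).mul (h1 b).inv
  have hdist : ∀ j j', j ≠ j' → pl (p' j) (p' j') ≠ 0 := by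
    intro j j' hne h0
    have h1 : ∀ l m, p' j l * p' j' m = p' j m * p' j' l := fun l m =>
      sub_eq_zero.1 (congrFun h0 (l, m))
    have e1 : p' j (cc j) = 1 := by rw [hp', div_self (hcc j)]
    have e2 : p' j' (cc j') = 1 := by rw [hp', div_self (hcc j')]
    have h2 := h1 (ca j) (cc j)
    rw [e1, one_mul] at h2
    have e3 : p' j' (cc j) ≠ 0 := by
      intro h3
      have h4 := h1 (cc j) (cc j')
      rw [e1, e2, h3, mul_zero, mul_one] at h4
      exact one_ne_zero h4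
    have h3 : p j (ca j) / p j (cc j) = p j' (ca j) / p j' (cc j) := by
      have h4 : p' j (ca j) = p' j' (ca j) / p' j' (cc j) := (eq_div_iff e3).2 h2
      rw [hp' j', hp' j', div_div_div_cancel_right₀ (hcc j')] at h4
      rw [← h4, hp']
    have h4 := (hci j).transcendental 0
    rw [show (![p j (ca j) / p j (cc j), p j (cb j) / p j (cc j)] : Fin 2 → k) 0 =
      p j (ca j) / p j (cc j) from rfl, h3] at h4
    refine h4 ?_
    exact isAlgebraic_algebraMap (⟨p j' (ca j) / p j' (cc j),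
      IntermediateField.subset_adjoin ℚ _ (Or.inr ⟨j', hne.symm, _, _, rfl⟩)⟩ :
      IntermediateField.adjoin ℚ ({r | ∃ a u, r = (G a).coeff u} ∪
        {r | ∃ j', j' ≠ j ∧ ∃ u v, r = p j' u / p j' v}))
  have h1 := core (k := k) (L := L) hn hdg hG hgen (x := x') (a0 := cc i) (l0 := l0)
    (by rw [hx']; exact inv_mul_cancel₀ hxa) hl0 (fun e => by
      have h2 := eval_smul_hom ((hG e).map (algebraMap k L)) x (x (cc i))⁻¹
      rw [eval_map, eval_map] at h2
      have h3 : x' = (x (cc i))⁻¹ • x := hx'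
      rw [h3]
      change eval₂ (algebraMap k L) ((x (cc i))⁻¹ • x) (G e) = 0
      rw [h2]
      have h4 : eval₂ (algebraMap k L) x (G e) = 0 := hx e
      rw [h4, mul_zero])
    (Finset.univ.erase i) (p := p') (fun j _ => ⟨cc j, by rw [hp', div_self (hcc j)]⟩)
    (k0 := IntermediateField.adjoin ℚ ({r | ∃ a u, r = (G a).coeff u} ∪
      {r | ∃ j, j ≠ i ∧ ∃ u v, r = p j u / p j v}))
    (fun a u => ⟨⟨(G a).coeff u, IntermediateField.subset_adjoin ℚ _ (Or.inl ⟨a, u, rfl⟩)⟩, rfl⟩)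
    (fun j hj l => ⟨⟨p j l / p j (cc j), IntermediateField.subset_adjoin ℚ _
      (Or.inr ⟨j, Finset.ne_of_mem_erase hj, l, cc j, rfl⟩)⟩, by rw [hp']; rfl⟩)
    (fun j _ j' _ h => hdist j j' h) hpl' (o := p' i) (by rw [hp', div_self (hcc i)])
    (m := ![ca i, cb i]) (by
      have h2 := hci i
      have h3 : (fun c => p' i ((![ca i, cb i] : Fin (1 + 1) → Fin (n + 1)) c)) =
          ![p i (ca i) / p i (cc i), p i (cb i) / p i (cc i)] := by
        funext c
        rw [hp']
        fin_cases c <;> rfl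
      rw [h3]
      exact h2) P hP'
  have hs : ∑ j ∈ Finset.univ.erase i, (pht k x - fht k (pl x' (pc L (p' j)))) =
      ∑ j ∈ Finset.univ.erase i, (pht k x - fht k (pl x (pc L (p j)))) :=
    Finset.sum_congr rfl fun j _ => by rw [hf' j]
  rw [hxx, hs] at h1
  have h2 := Finset.add_sum_erase Finset.univ
    (fun j => pht k x - fht k (pl x (pc L (p j)))) (Finset.mem_univ i)
  have h3 : 0 ≤ ∑ j ∈ Finset.univ.erase i, (pht k x - fht k (pl x (pc L (p j)))) :=
    Finset.sum_nonneg fun j _ => hpos j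
  have h4 : fht k (pl x (pc L (p i))) ≥ 0 := fht_nonneg (hpl i)
  obtain ⟨T, hT⟩ : ∃ T, T = ∑ j ∈ Finset.univ.erase i,
    (pht k x - fht k (pl x (pc L (p j)))) := ⟨_, rfl⟩
  rw [← hT] at h1 h2 h3
  rw [← h2, ← hSd]
  rw [← hSd] at h1
  obtain ⟨H, hH⟩ : ∃ H, H = pht k x := ⟨_, rfl⟩
  obtain ⟨E, hE⟩ : ∃ E, E = fht k (pl x (pc L (p i))) := ⟨_, rfl⟩
  obtain ⟨N, hN⟩ : ∃ N, N = canDeg k L := ⟨_, rfl⟩
  obtain ⟨c, hc⟩ : ∃ c, c = S - n - 1 := ⟨_, rfl⟩
  have hc1 : 1 ≤ c := by omega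
  have hc2 : S - n - 2 = c - 1 := by omega
  have hc3 : S - n = c + 1 := by omega
  rw [hc2, ← hc, hc3]
  simp only [← hH, ← hE, ← hN] at h1 h4 hp0 ⊢
  rw [← hc] at h1
  have h5 : H ≤ c * H := by nlinarith
  refine ⟨by linarith, ?_, fun _ => ?_⟩
  · have h6 : (c - 1) * (c * H + T) ≤ (c - 1) * N :=
      mul_le_mul_of_nonneg_left h1 (by linarith)
    have h7 : (c - 1) * (H - E) ≤ (c - 1) * H :=
      mul_le_mul_of_nonneg_left (by linarith) (by linarith)
    have h8 : (c - 1) * H ≤ N := by nlinarith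
    nlinarith
  · have h6 : c * (c * H + T) ≤ c * N := mul_le_mul_of_nonneg_left h1 (by linarith)
    have h7 : c * (H - E) ≤ c * H := mul_le_mul_of_nonneg_left (by linarith) (by linarith)
    have h8 : c * H ≤ N := by linarith
    nlinarith

/-- A point that is not constant is different from the constant points. -/
theorem pl_ne {x : Fin (n + 1) → L} {a b : Fin (n + 1)} (hb : x b ≠ 0)
    (hab : Transcendental k (x a / x b)) {p : Fin (n + 1) → k} (hp : ∃ c, p c ≠ 0) :
    pl x (pc L p) ≠ 0 := by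
  obtain ⟨c, hc⟩ := hp
  intro h0
  have h1 : ∀ l m, x l * algebraMap k L (p m) = x m * algebraMap k L (p l) := fun l m =>
    sub_eq_zero.1 (congrFun h0 (l, m))
  have h2 : algebraMap k L (p c) ≠ 0 := (map_ne_zero _).2 hc
  have h3 : algebraMap k L (p b) ≠ 0 := by
    intro h3
    have h4 := h1 b c
    rw [h3, mul_zero] at h4
    exact mul_ne_zero hb h2 h4
  have h4 : x a / x b = algebraMap k L (p a / p b) := by
    rw [map_div₀, div_eq_div_iff hb h3, h1 a b, mul_comm]
  exact hab (by rw [h4]; exact isAlgebraic_algebraMap _)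

/-- The sum of the multiplicities. -/
theorem exc_eq {x : Fin (n + 1) → L} {a b : Fin (n + 1)} (hb : x b ≠ 0)
    (hab : Transcendental k (x a / x b)) {p : Fin (n + 1) → k} (hp : ∃ c, p c ≠ 0) :
    ∑ᶠ P : Place k L, (po P (pl x (pc L p)) - pord P x) =
      pht k x - fht k (pl x (pc L p)) := by
  have f1 : {P : Place k L | pord P x ≠ 0}.Finite := pord_finite (k := k) ⟨b, hb⟩
  rw [finsum_sub_distrib (po_finite (k := k) (pl_ne hb hab hp)) f1]
  unfold pht fht
  ring

end

end Pool.Agent.H435.BL
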