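import Pool.Agent.H435.CV.Two

/-!
The volume of a vector along a curve in a complete intersection surface, and its orders.
-/

set_option autoImplicit false
set_option linter.unusedSectionVars false
set_option linter.unusedSimpArgs false

open MvPolynomial FF Pool.Agent.W603.LV Pool.Agent.W603.PV Pool.Agent.TH145.GH
open Pool.Agent.Y735 (vol vol_apply alt_tri po po_le exists_po fht)
open Pool.Agent.W602.GT Pool.Agent.TH145.GF

namespace Pool.Agent.H435.BL

open Pool.Agent.Y741

section alg

variable {K : Type} [Field K] {n : ℕ} {A : Type} [DecidableEq A] [Fintype A]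

/-- The rows of the volume. -/
noncomputable def Rr (dg : A → ℕ) (D : A → (Fin (n + 1) →₀ ℕ) → Derivation ℤ K K)
    (x : Fin (n + 1) → K) (a0 : Fin (n + 1)) (z w : Fin (n + 1) → K) :
    A ⊕ Fin 3 → Fin (n + 1) → K :=
  Sum.elim (fun c => vA D x (Pi.single c (X a0 ^ dg c))) ![x, z, w]

variable {F : Fam K n A} {dg : A → ℕ} {D : A → (Fin (n + 1) →₀ ℕ) → Derivation ℤ K K}
  {x : Fin (n + 1) → K} (hF : ∀ a, (F a).IsHomogeneous (dg a)) (hD : TH145.GC.Dual F dg D)
  (hxC : ∀ a, eval x (F a) = 0) (hn : n = Fintype.card A + 2) (V : A ⊕ Fin 3 ≃ Fin (n + 1))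
  {a0 : Fin (n + 1)} (ha0 : x a0 = 1) {z w : Fin (n + 1) → K}

include hF hD hxC hn ha0

theorem TC_le (hz : z ∈ TC F Finset.univ x) (hw : w ∈ TC F Finset.univ x)
    (hL : vol V (Rr dg D x a0 z w) ≠ 0) :
    TC F Finset.univ x ≤ Submodule.span K ({x, z, w} : Set (Fin (n + 1) → K)) := by
  classical
  have hx0 : x ≠ 0 := by
    rintro rfl
    exact zero_ne_one ha0
  have hxC' : ∀ c ∈ (Finset.univ : Finset A), eval x (F c) = 0 := fun c _ => hxC c
  have h2 : LinearIndependent K (Rr dg D x a0 z w) := by
    rw [vol_apply, ← isUnit_iff_ne_zero, ← Matrix.isUnit_iff_isUnit_det] at hL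
    exact (linearIndependent_equiv V.symm).1 (Matrix.linearIndependent_rows_iff_isUnit.2 hL)
  have h3 : LinearIndependent K (![x, z, w] : Fin 3 → Fin (n + 1) → K) :=
    h2.comp (Sum.inr : Fin 3 → A ⊕ Fin 3) Sum.inr_injective
  have hfr := TC_finrank hF hD hxC' hx0
  rw [Finset.card_univ] at hfr
  have h5 : Submodule.span K (Set.range (![x, z, w] : Fin 3 → Fin (n + 1) → K)) =
      TC F Finset.univ x := by
    refine Submodule.eq_of_le_of_finrank_eq ?_ ?_
    · rw [Submodule.span_le]
      rintro _ ⟨i, rfl⟩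
      fin_cases i
      · exact x_mem_TC hF hxC'
      · exact hz
      · exact hw
    · rw [finrank_span_eq_card h3, Fintype.card_fin]
      omega
  rw [← h5, Submodule.span_le]
  rintro _ ⟨i, rfl⟩
  fin_cases i
  · exact Submodule.subset_span (Set.mem_insert _ _)
  · exact Submodule.subset_span (Set.mem_insert_of_mem _ (Set.mem_insert _ _))
  · exact Submodule.subset_span (Set.mem_insert_of_mem _ (Set.mem_insert_of_mem _
      (Set.mem_singleton _)))

theorem vol_ne (hsp : TC F Finset.univ x ≤
    Submodule.span K ({x, z, w} : Set (Fin (n + 1) → K))) :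
    vol V (Rr dg D x a0 z w) ≠ 0 := by
  classical
  have hxC' : ∀ c ∈ (Finset.univ : Finset A), eval x (F c) = 0 := fun c _ => hxC c
  obtain ⟨R, hR⟩ : ∃ R, R = Rr dg D x a0 z w := ⟨_, rfl⟩
  have h2 : Submodule.span K ({x, z, w} : Set (Fin (n + 1) → K)) ≤
      Submodule.span K (Set.range R) := by
    rw [Submodule.span_le]
    intro y hy
    rcases hy with rfl | rfl | hy
    · exact Submodule.subset_span ⟨Sum.inr 0, by rw [hR]; rfl⟩
    · exact Submodule.subset_span ⟨Sum.inr 1, by rw [hR]; rfl⟩
    · rw [Set.mem_singleton_iff] at hy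
      rw [hy]
      exact Submodule.subset_span ⟨Sum.inr 2, by rw [hR]; rfl⟩
  have htop : Submodule.span K (Set.range R) = ⊤ := by
    rw [eq_top_iff]
    intro y _
    have h1 := exists_dec hF hD hxC' (i0 := a0) (by rw [ha0]; exact one_ne_zero) y
    have h3 := h2 (hsp h1)
    have h4 : ∑ c : (Finset.univ : Finset A), (-(dF (F c) x y / x a0 ^ dg c.1)) •
        vA D x (Pi.single c.1 (X a0 ^ dg c.1)) ∈ Submodule.span K (Set.range R) :=
      sum_mem fun c _ => Submodule.smul_mem _ _ (Submodule.subset_span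
        ⟨Sum.inl c.1, by rw [hR]; rfl⟩)
    have h5 := add_mem h3 h4
    rwa [sub_add_cancel] at h5
  have hEc : Fintype.card (A ⊕ Fin 3) = Fintype.card (Fin (n + 1)) := Fintype.card_congr V
  have hind : LinearIndependent K R :=
    linearIndependent_of_top_le_span_of_card_eq_finrank htop.ge (by
      rw [hEc, Fintype.card_fin, Module.finrank_fin_fun])
  rw [← hR, vol_apply]
  have h4 := Matrix.linearIndependent_rows_iff_isUnit
    (A := Matrix.of fun i => R (V.symm i))
  rw [Matrix.isUnit_iff_isUnit_det, isUnit_iff_ne_zero] at h4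
  refine h4.1 ?_
  exact (linearIndependent_equiv V.symm).2 hind

/-- A tangent vector of volume zero. -/
theorem mem_of_zero (hz : z ∈ TC F Finset.univ x) (hw : w ∈ TC F Finset.univ x)
    (hind : LinearIndependent K ![x, z]) (h0 : vol V (Rr dg D x a0 z w) = 0) :
    w ∈ Submodule.span K (Set.range ![x, z]) := by
  classical
  by_contra hws
  have hx0 : x ≠ 0 := by
    rintro rfl
    exact zero_ne_one ha0
  have hxC' : ∀ c ∈ (Finset.univ : Finset A), eval x (F c) = 0 := fun c _ => hxC c
  have hfr := TC_finrank hF hD hxC' hx0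
  rw [Finset.card_univ] at hfr
  refine vol_ne hF hD hxC hn V ha0 (z := z) (w := w) ?_ h0
  have h3 : LinearIndependent K
      (Fin.cons w ![x, z] : Fin 3 → Fin (n + 1) → K) :=
    linearIndependent_finCons.2 ⟨hind, hws⟩
  have h4 : Submodule.span K (Set.range (Fin.cons w ![x, z] :
      Fin 3 → Fin (n + 1) → K)) = TC F Finset.univ x := by
    refine Submodule.eq_of_le_of_finrank_eq ?_ ?_
    · rw [Submodule.span_le]
      rintro _ ⟨i, rfl⟩
      fin_cases i
      · exact hw
      · exact x_mem_TC hF hxC'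
      · exact hz
    · rw [finrank_span_eq_card h3, Fintype.card_fin]
      omega
  rw [← h4, Submodule.span_le]
  rintro _ ⟨i, rfl⟩
  fin_cases i
  · exact Submodule.subset_span (Set.mem_insert_of_mem _ (Set.mem_insert_of_mem _
      (Set.mem_singleton _)))
  · exact Submodule.subset_span (Set.mem_insert _ _)
  · exact Submodule.subset_span (Set.mem_insert_of_mem _ (Set.mem_insert _ _))

end alg

section loc

variable {k L : Type} [Field k] [Field L] [Algebra k L] [IsAlgClosed k] [CharZero k] [IsFF k L]
  {n : ℕ} {A : Type} [DecidableEq A] [Fintype A]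
  {F : Fam L n A} {dg : A → ℕ} {D : A → (Fin (n + 1) →₀ ℕ) → Derivation ℤ L L}

/-- Dual derivations that are regular at a place. -/
theorem exists_reg (P : Place k L) (hD : TH145.GC.Dual F dg D) (hS : ∀ a I, Sem k (D a I))
    (hFk : ∀ a u, ∃ c : k, (F a).coeff u = algebraMap k L c) :
    ∃ D' : A → (Fin (n + 1) →₀ ℕ) → Derivation ℤ L L, TH145.GC.Dual F dg D' ∧
      ∀ f, Ge P 0 f → ∀ a I, Ge P 0 (D' a I f) := by
  have hFF : IsFF k L := inferInstance
  have htr : Algebra.trdeg k L = (1 : ℕ) := by rw [hFF.trdeg, Nat.cast_one]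
  choose ξ hξ using fun a I => exists_lift one_pos htr (div_one P) (hS a I)
  obtain ⟨D', hD'⟩ : ∃ D' : A → (Fin (n + 1) →₀ ℕ) → Derivation ℤ L L, ∀ a I f,
    D' a I f = D a I f - ξ a I f := ⟨fun a I => D a I - (ξ a I).restrictScalars ℤ,
      fun a I f => by simp⟩
  refine ⟨D', fun a b I J hI hJ => ?_, fun f hf a I => ?_⟩
  · obtain ⟨c, hc⟩ := hFk b J
    have h1 : D' a I ((F b).coeff J) = D a I ((F b).coeff J) := by
      rw [hD', hc, (ξ a I).map_algebraMap, sub_zero]
    rw [h1]
    exact hD a b I J hI hJ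
  · rw [hD']
    rcases eq_or_ne f 0 with rfl | hf0
    · rw [map_zero, map_zero, sub_zero]
      exact Ge.zero
    · exact (hξ a I f hf0).mono (hf.resolve_left hf0)

/-- The order of the volume at a place. -/
theorem ge_vol (hF : ∀ a, (F a).IsHomogeneous (dg a)) (hdg : ∀ a, 0 < dg a)
    (hD : TH145.GC.Dual F dg D) (hS : ∀ a I, Sem k (D a I))
    (hFk : ∀ a u, ∃ c : k, (F a).coeff u = algebraMap k L c) (hn : n = Fintype.card A + 2)
    (V : A ⊕ Fin 3 ≃ Fin (n + 1)) {δ : Derivation k L L} (hδ : δ ≠ 0) (P : Place k L)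
    {x : Fin (n + 1) → L} (hxC : ∀ a, eval x (F a) = 0) {a0 : Fin (n + 1)} (ha0 : x a0 = 1)
    {w w0 : Fin (n + 1) → L} (hwT : w ∈ TC F Finset.univ x) {α β : L} {e : ℤ}
    (hw : w = w0 + α • x + β • fun l => δ (x l)) (hw0 : ∀ l, Ge P (pord P x + e) (w0 l)) :
    Ge P (((n : ℤ) + 1 - ((∑ a, dg a : ℕ) : ℤ)) * pord P x + vo P δ + e)
      (vol V (Rr dg D x a0 (fun l => δ (x l)) w)) := by
  classical
  by_cases h0 : vol V (Rr dg D x a0 (fun l => δ (x l)) w) = 0
  · exact Or.inl h0
  have hx0 : x ≠ 0 := by
    rintro rfl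
    exact zero_ne_one ha0
  have hδT : (fun l => δ (x l)) ∈ TC F Finset.univ x := by
    intro c _
    have h3 := Pool.Agent.TH145.GE.dF_ev (E := δ.restrictScalars ℤ) (G := F c) (fun u => by
      obtain ⟨r, hr⟩ := hFk c u
      rw [hr]
      exact δ.map_algebraMap r) x
    rw [hxC, map_zero] at h3
    exact h3
  have hTC := TC_le hF hD hxC hn V ha0 hδT hwT h0
  obtain ⟨lam, x', hlam, hlamP, hxx, hx', i1, hi1⟩ := exists_scaled P hx0
  obtain ⟨D', hD', hreg⟩ := exists_reg P hD hS hFk
  have hπ := ord_unif P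
  have hδπ := der_pi_ne_zero hδ P hπ
  obtain ⟨δ', hδ'⟩ : ∃ δ' : Derivation k L L, δ' = (δ (unif P))⁻¹ • δ := ⟨_, rfl⟩
  have hδ'a : ∀ f, δ f = δ (unif P) * δ' f := fun f => by
    rw [hδ', Derivation.coe_smul, Pi.smul_apply, smul_eq_mul, mul_inv_cancel_left₀ hδπ]
  have hδreg : ∀ f, Ge P 0 f → Ge P 0 (δ' f) := fun f hf =>
    der_reg P hπ δ' (by rw [hδ']; simp [hδπ]) hf
  have hla : lam * x' a0 = 1 := by
    have h1 := congrFun hxx a0
    rw [Pi.smul_apply, smul_eq_mul, ha0] at h1
    exact h1.symm
  have hxa : x' a0 ≠ 0 := right_ne_zero_of_mul (hla.trans_ne one_ne_zero)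
  have hxaP : P.ord (x' a0) = -pord P x := by
    have h1 := P.ord_mul hlam hxa
    rw [hla, P.ord_one, hlamP] at h1
    linarith
  have hxC' : ∀ a, eval x' (F a) = 0 := by
    intro a
    have h1 := hxC a
    rw [hxx, eval_smul_hom (hF a)] at h1
    exact (mul_eq_zero.1 h1).resolve_left (pow_ne_zero _ hlam)
  have hdx : ∀ (b : A) z, dF (F b) x z = lam ^ (dg b - 1) * dF (F b) x' z := by
    intro b z
    unfold dF
    rw [Finset.mul_sum]
    refine Finset.sum_congr rfl fun l _ => ?_
    rw [hxx, eval_smul_hom ((hF b).pderiv (i := l)), mul_assoc]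
  have hsub : ∀ (y z : Fin (n + 1) → L) (r : L) (b : A), dF (F b) x (y - r • z) =
      dF (F b) x y - r * dF (F b) x z := by
    intro y z r b
    rw [sub_eq_add_neg, ← neg_smul, dF_add, dF_smul]
    ring
  -- the triangular change of the rows
  have h1 := alt_tri (vol V) (Rr dg D x a0 (fun l => δ (x l)) w)
    (Rr dg D' x' i1 (fun l => δ' (x' l)) (lam⁻¹ • w0))
    (Sum.elim (fun c => lam * x' a0 ^ dg c) ![lam, lam * δ (unif P), lam])
    (Sum.elim (fun _ => 3) ![0, 1, 2]) ?_
  · -- the orders
    rw [h1, Fintype.prod_sum_type]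
    have h2 : Ge P (∑ c : A, (pord P x + dg c * (-pord P x)))
        (∏ c : A, Sum.elim (fun c => lam * x' a0 ^ dg c) ![lam, lam * δ (unif P), lam]
          (Sum.inl c : A ⊕ Fin 3)) := by
      refine Ge.prod _ _ _ fun c _ => ?_
      right
      simp only [Sum.elim_inl]
      rw [P.ord_mul hlam (pow_ne_zero _ hxa), P.ord_pow, hlamP, hxaP]
    have h3 : Ge P (3 * pord P x + vo P δ)
        (∏ i : Fin 3, Sum.elim (fun c => lam * x' a0 ^ dg c) ![lam, lam * δ (unif P), lam]
          (Sum.inr i : A ⊕ Fin 3)) := by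
      right
      simp only [Sum.elim_inr]
      rw [Fin.prod_univ_three]
      change _ ≤ P.ord (lam * (lam * δ (unif P)) * lam)
      rw [P.ord_mul (mul_ne_zero hlam (mul_ne_zero hlam hδπ)) hlam,
        P.ord_mul hlam (mul_ne_zero hlam hδπ), P.ord_mul hlam hδπ, hlamP]
      unfold vo
      omega
    have h4 : Ge P e (vol V (Rr dg D' x' i1 (fun l => δ' (x' l)) (lam⁻¹ • w0))) := by
      rw [vol_apply]
      refine Pool.Agent.W603.LV.ge_det P _ e
        (fun i _ => if V.symm i = Sum.inr 2 then e else 0) (fun i j => ?_) fun σ => ?_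
      · obtain ⟨κ, hκ⟩ : ∃ κ, κ = V.symm i := ⟨_, rfl⟩
        rw [Matrix.of_apply, ← hκ]
        rcases κ with c | κ
        · rw [if_neg (by simp)]
          change Ge P 0 (vA D' x' (Pi.single c (X i1 ^ dg c)) j)
          rw [vA_apply]
          have h5 := ge_DA P (dg := dg) (D := D') (m := 0) (c := 0) (f := x' j)
            (fun a I _ => hreg _ (hx' j) a I)
            (G := Pi.single c (X i1 ^ dg c))
            (fun a => single_hom (isHomogeneous_X_pow i1 (dg c)) a) (fun a u => by
              by_cases hac : a = c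
              · subst hac
                rw [Pi.single_eq_same, coeff_X_pow]
                split_ifs
                · exact Ge.one
                · exact Ge.zero
              · rw [Pi.single_eq_of_ne hac, coeff_zero]
                exact Ge.zero)
          rwa [add_zero] at h5
        · fin_cases κ
          · rw [if_neg (by simp)]
            exact hx' j
          · rw [if_neg (by simp)]
            exact hδreg _ (hx' j)
          · rw [if_pos (by rfl)]
            change Ge P e (lam⁻¹ * w0 j)
            have h5 : Ge P (-pord P x) lam⁻¹ := by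
              right
              rw [P.ord_inv, hlamP]
            exact (h5.mul (hw0 j)).mono (by omega)
      · rw [Equiv.sum_comp σ fun i => if V.symm i = Sum.inr 2 then e else 0,
          ← Equiv.sum_comp V fun i => if V.symm i = Sum.inr 2 then e else 0]
        simp only [Equiv.symm_apply_apply]
        rw [Finset.sum_ite_eq' Finset.univ, if_pos (Finset.mem_univ _)]
    refine ((h2.mul h3).mul h4).mono (le_of_eq ?_)
    have hn' : (n : ℤ) = Fintype.card A + 2 := by exact_mod_cast hn
    rw [Finset.sum_add_distrib, Finset.sum_const, Finset.card_univ, ← Finset.sum_mul,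
      nsmul_eq_mul, hn']
    push_cast
    ring
  · obtain ⟨R, hR⟩ : ∃ R, R = Rr dg D x a0 (fun l => δ (x l)) w := ⟨_, rfl⟩
    have hRx : R (Sum.inr 0) = x := by rw [hR]; rfl
    have hRd : R (Sum.inr 1) = fun l => δ (x l) := by rw [hR]; rfl
    have hRw : R (Sum.inr 2) = w := by rw [hR]; rfl
    rw [← hR]
    intro κ
    rcases κ with c | κ
    · have hmem : R (Sum.inl c) - (lam * x' a0 ^ dg c) • vA D' x' (Pi.single c (X i1 ^ dg c)) ∈
          TC F Finset.univ x := by
        intro b _
        rw [hsub]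
        have e1 : dF (F b) x (R (Sum.inl c)) = -(if b = c then 1 else 0) := by
          rw [hR]
          change dF (F b) x (vA D x (Pi.single c (X a0 ^ dg c))) = _
          rw [dF_vA hF hD x (fun a => single_hom (isHomogeneous_X_pow a0 (dg c)) a), hxC,
            map_zero, zero_sub]
          by_cases hbc : b = c
          · subst hbc
            rw [Pi.single_eq_same, if_pos rfl, map_pow, eval_X, ha0, one_pow]
          · rw [Pi.single_eq_of_ne hbc, if_neg hbc, map_zero]
        have e2 : dF (F b) x (vA D' x' (Pi.single c (X i1 ^ dg c))) =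
            -(if b = c then lam ^ (dg b - 1) else 0) := by
          rw [hdx, dF_vA hF hD' x' (fun a => single_hom (isHomogeneous_X_pow i1 (dg c)) a), hxC',
            map_zero, zero_sub]
          by_cases hbc : b = c
          · subst hbc
            rw [Pi.single_eq_same, if_pos rfl, map_pow, eval_X, hi1, one_pow]
            ring
          · rw [Pi.single_eq_of_ne hbc, if_neg hbc, map_zero]
            ring
        rw [e1, e2]
        by_cases hbc : b = c
        · subst hbc
          rw [if_pos rfl, if_pos rfl]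
          have e3 : lam * x' a0 ^ dg b * lam ^ (dg b - 1) = 1 := by
            have h5 := hdg b
            calc lam * x' a0 ^ dg b * lam ^ (dg b - 1)
                = (lam ^ (dg b - 1) * lam) * x' a0 ^ dg b := by ring
              _ = lam ^ dg b * x' a0 ^ dg b := by
                  rw [← pow_succ, Nat.sub_add_cancel h5]
              _ = 1 := by rw [← mul_pow, hla, one_pow]
          linear_combination e3
        · rw [if_neg hbc, if_neg hbc]
          ring
      have h5 := hTC hmem
      refine Submodule.span_mono ?_ h5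
      intro y hy
      rcases hy with rfl | rfl | hy
      · exact ⟨Sum.inr 0, by simp, hRx⟩
      · exact ⟨Sum.inr 1, by simp, hRd⟩
      · rw [Set.mem_singleton_iff] at hy
        rw [hy]
        exact ⟨Sum.inr 2, by simp, hRw⟩
    · fin_cases κ
      · change R (Sum.inr 0) - lam • x' ∈ _
        rw [hRx, ← hxx, sub_self]
        exact zero_mem _
      · change R (Sum.inr 1) - (lam * δ (unif P)) • (fun l => δ' (x' l)) ∈ _
        have h3 : R (Sum.inr 1) - (lam * δ (unif P)) • (fun l => δ' (x' l)) =
            (δ lam * lam⁻¹) • R (Sum.inr 0) := by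
          rw [hRd, hRx]
          funext l
          have h4 : x l = lam * x' l := by
            conv_lhs => rw [hxx]
            rfl
          rw [Pi.sub_apply, Pi.smul_apply, Pi.smul_apply, smul_eq_mul, smul_eq_mul, mul_assoc lam,
            ← hδ'a, h4, δ.leibniz]
          simp only [smul_eq_mul]
          field_simp
          ring
        rw [h3]
        exact Submodule.smul_mem _ _ (Submodule.subset_span ⟨Sum.inr 0, by simp, rfl⟩)
      · change R (Sum.inr 2) - lam • (lam⁻¹ • w0) ∈ _
        have h3 : R (Sum.inr 2) - lam • (lam⁻¹ • w0) =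
            α • R (Sum.inr 0) + β • R (Sum.inr 1) := by
          rw [hRw, hRx, hRd, smul_smul, mul_inv_cancel₀ hlam, one_smul, hw]
          abel
        rw [h3]
        exact add_mem
          (Submodule.smul_mem _ _ (Submodule.subset_span ⟨Sum.inr 0, by simp, rfl⟩))
          (Submodule.smul_mem _ _ (Submodule.subset_span ⟨Sum.inr 1, by simp, rfl⟩))

end loc

end Pool.Agent.H435.BL
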