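import Pool.Agent.H435.BL.Spec

/-!
A product of linear forms through special points.
-/

set_option autoImplicit false
set_option linter.unusedSectionVars false

open MvPolynomial FF Pool.Agent.W603.LV Pool.Agent.W603.PV Pool.Agent.TH145.GH
open Pool.Agent.Y735 (pl)

namespace Pool.Agent.H435.BL

section

variable {k L : Type} [Field k] [Field L] [Algebra k L] {n : ℕ}

/-- There is a product of linear forms that vanishes at the special points, and not at `x`. -/
theorem exists_prod {x : Fin (n + 1) → L} {Q : Type} [Fintype Q] {q : Q → Fin (n + 1) → k}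
    (hpl : ∀ l, pl x (pc L (q l)) ≠ 0) : ∃ H : MvPolynomial (Fin (n + 1)) k,
      H.IsHomogeneous (Fintype.card Q) ∧ (∀ l, eval (q l) H = 0) ∧ aeval x H ≠ 0 := by
  classical
  have h1 : ∀ l, ∃ r : Fin (n + 1) × Fin (n + 1), pl x (pc L (q l)) r ≠ 0 := fun l =>
    Function.ne_iff.1 (hpl l)
  choose r hr using h1
  refine ⟨∏ l, (C (q l (r l).2) * X (r l).1 - C (q l (r l).1) * X (r l).2), ?_, fun l => ?_, ?_⟩
  · have h2 := IsHomogeneous.prod (R := k) (σ := Fin (n + 1)) Finset.univ
      (fun l => C (q l (r l).2) * X (r l).1 - C (q l (r l).1) * X (r l).2) (fun _ : Q => 1)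
      fun l _ => by
        have h3 : ∀ (a : k) (i : Fin (n + 1)),
            (C a * X i : MvPolynomial (Fin (n + 1)) k).IsHomogeneous 1 := fun a i => by
          have h4 := (isHomogeneous_C (Fin (n + 1)) a).mul (isHomogeneous_X k i)
          rwa [zero_add] at h4
        exact (h3 _ _).sub (h3 _ _)
    rw [Finset.sum_const, Finset.card_univ, smul_eq_mul, mul_one] at h2
    exact h2
  · rw [map_prod]
    refine Finset.prod_eq_zero (Finset.mem_univ l) ?_
    rw [map_sub, map_mul, map_mul, eval_C, eval_C, eval_X, eval_X]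
    ring
  · rw [map_prod]
    refine Finset.prod_ne_zero_iff.2 fun l _ => ?_
    have h2 := hr l
    simp only [pl, pc] at h2
    rw [map_sub, map_mul, map_mul, aeval_C, aeval_C, aeval_X, aeval_X]
    intro h3
    apply h2
    linear_combination h3

end

end Pool.Agent.H435.BL
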