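import Pool.Agent.H435.BL.Fin

/-!
The multiplicities at special points on a hypersurface and at generic points.
-/

set_option autoImplicit false
set_option linter.unusedSectionVars false
set_option linter.unusedSimpArgs false

open MvPolynomial FF Pool.Agent.W603.LV Pool.Agent.W603.PV Pool.Agent.TH145.GH
open Pool.Agent.Y735 (vol vol_apply pl po po_le exists_po fht po_finite fht_nonneg)
open Pool.Agent.W602.GT Pool.Agent.TH145.GF
open Pool.Agent.TH145.GC (Cf)

namespace Pool.Agent.H435.BL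

open Pool.Agent.Y741
open Pool.Agent.H435.VG (ge_po le_po fs_le fin_mul fin_add fin_sum)

section

variable {k L : Type} [Field k] [Field L] [Algebra k L] [IsAlgClosed k] [CharZero k] [IsFF k L]
  {n : ℕ}

/-- The values of a form at two near points. -/
theorem near (P : Place k L) {x z : Fin (n + 1) → L} (hx : ∀ l, Ge P 0 (x l))
    (hz : ∀ l, Ge P 0 (z l)) {e : ℤ} (hxz : ∀ l, Ge P e (x l - z l))
    (G : MvPolynomial (Fin (n + 1)) k) :
    Ge P 0 (aeval x G) ∧ Ge P e (aeval x G - aeval z G) := by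
  induction G using MvPolynomial.induction_on with
  | C a =>
    rw [aeval_C, aeval_C, sub_self]
    exact ⟨Ge.const a, Ge.zero⟩
  | add g h hg hh =>
    rw [map_add, map_add]
    refine ⟨hg.1.add hh.1, ?_⟩
    have h2 := hg.2.add hh.2
    have h3 : aeval x g - aeval z g + (aeval x h - aeval z h) =
        aeval x g + aeval x h - (aeval z g + aeval z h) := by ring
    rwa [h3] at h2
  | mul_X g i hg =>
    rw [map_mul, map_mul, aeval_X, aeval_X]
    refine ⟨(hg.1.mul (hx i)).mono (by omega), ?_⟩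
    have h3 : aeval x g * x i - aeval z g * z i =
        aeval x g * (x i - z i) + (aeval x g - aeval z g) * z i := by ring
    rw [h3]
    exact ((hg.1.mul (hxz i)).mono (by omega)).add ((hg.2.mul (hz i)).mono (by omega))

/-- The order of a form that vanishes at a constant point. -/
theorem ord_form (P : Place k L) {x : Fin (n + 1) → L} (hx0 : x ≠ 0)
    {H : MvPolynomial (Fin (n + 1)) k} {m : ℕ} (hH : H.IsHomogeneous m) (hHx : aeval x H ≠ 0) :
    m * pord P x ≤ P.ord (aeval x H) ∧ ∀ q : Fin (n + 1) → k, (∃ c, q c ≠ 0) → eval q H = 0 →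
      m * pord P x + (po P (pl x (pc L q)) - pord P x) ≤ P.ord (aeval x H) := by
  obtain ⟨lam, x', hlam, hlamP, hxx, hx', i1, hi1⟩ := exists_scaled P hx0
  have hxl : ∀ l, x l = lam * x' l := fun l => congrFun hxx l
  have h1 : ∀ (z : Fin (n + 1) → L) (r : L), aeval (r • z) H = r ^ m * aeval z H := by
    intro z r
    have h2 := eval_smul_hom (hH.map (algebraMap k L)) z r
    rw [eval_map, eval_map] at h2
    exact h2
  have h2 : aeval x H = lam ^ m * aeval x' H := by
    conv_lhs => rw [hxx]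
    exact h1 x' lam
  have h3 : aeval x' H ≠ 0 := fun h => hHx (by rw [h2, h, mul_zero])
  have h4 : P.ord (aeval x H) = m * pord P x + P.ord (aeval x' H) := by
    rw [h2, P.ord_mul (pow_ne_zero _ hlam) h3, P.ord_pow, hlamP]
  have hc0 : ∀ c : k, Ge P 0 (algebraMap k L c) := fun c => Ge.const c
  rw [h4]
  refine ⟨?_, fun q hq hHq => ?_⟩
  · have h5 := (near P hx' hx' (e := 0) (fun l => by rw [sub_self]; exact Ge.zero) H).1
    have h6 := h5.resolve_left h3
    linarith
  · obtain ⟨s, hs⟩ := hq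
    have hs' : algebraMap k L (q s) ≠ 0 := (map_ne_zero _).2 hs
    have hsi : Ge P 0 (algebraMap k L (q s))⁻¹ := by
      rw [← map_inv₀]
      exact Ge.const _
    obtain ⟨r, hr⟩ : ∃ r, r = x' s * (algebraMap k L (q s))⁻¹ := ⟨_, rfl⟩
    have hr0 : Ge P 0 r := by
      rw [hr]
      exact ((hx' s).mul hsi).mono (by omega)
    have h5 := (near P hx' (z := r • pc L q) (fun l => (hr0.mul (hc0 (q l))).mono (by omega))
      (e := po P (pl x (pc L q)) - pord P x) (fun l => by
        have h6 := ge_pl P hlam hlamP hxl (y := pc L q) (l, s)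
        have h7 : x' l - (r • pc L q) l = pl x' (pc L q) (l, s) * (algebraMap k L (q s))⁻¹ := by
          rw [Pi.smul_apply, smul_eq_mul, hr]
          simp only [pl, pc]
          field_simp
        rw [h7]
        exact (h6.mul hsi).mono (by omega)) H).2
    have h6 : aeval (r • pc L q) H = 0 := by
      rw [h1]
      have h7 : aeval (pc L q) H = algebraMap k L (eval q H) := by
        have h8 := MvPolynomial.eval₂_comp_left (algebraMap k L) (RingHom.id k) q H
        exact h8.symm
      rw [h7, hHq, map_zero, mul_zero]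
    rw [h6, sub_zero] at h5
    have h7 := h5.resolve_left h3
    linarith

/-- The multiplicities at the points of a hypersurface. -/
theorem spec {x : Fin (n + 1) → L} (hx0 : x ≠ 0)
    {H : MvPolynomial (Fin (n + 1)) k} {m : ℕ} (hH : H.IsHomogeneous m) (hHx : aeval x H ≠ 0)
    {Q : Type} [Fintype Q] {q : Q → Fin (n + 1) → k} (hq0 : ∀ l, ∃ c, q l c ≠ 0)
    (hqd : ∀ l l', l ≠ l' → pl (q l) (q l') ≠ 0) (hHq : ∀ l, eval (q l) H = 0)
    (hpl : ∀ l, pl x (pc L (q l)) ≠ 0) :
    ∑ l, (pht k x - fht k (pl x (pc L (q l)))) ≤ m * pht k x := by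
  classical
  have f1 : {P : Place k L | pord P x ≠ 0}.Finite := pord_finite (k := k) (Function.ne_iff.1 hx0)
  have f3 : ∀ j, {P : Place k L | po P (pl x (pc L (q j))) + (-1) * pord P x ≠ 0}.Finite :=
    fun j => fin_add (po_finite (k := k) (hpl j)) (fin_mul f1 (-1))
  have h1 := fs_le (k := k) (A := fun P => (m : ℤ) * pord P x +
    ∑ j, (po P (pl x (pc L (q j))) + (-1) * pord P x))
    (fin_add (fin_mul f1 m) (fin_sum Finset.univ f3)) (g := aeval x H) fun P => by
      have hm := fun j => mult_nonneg P (hpl j)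
      obtain ⟨h2, h3⟩ := ord_form P hx0 hH hHx
      by_cases h : ∃ j, 1 ≤ po P (pl x (pc L (q j))) - pord P x
      · obtain ⟨j, hjP⟩ := h
        have h4 := h3 (q j) (hq0 j) (hHq j)
        rw [Finset.sum_eq_single_of_mem j (Finset.mem_univ j) fun j' _ hne => by
          have h2 : ¬ (1 ≤ po P (pl x (pc L (q j'))) - pord P x) := fun h3 =>
            excl P hx0 (hqd j' j hne) h3 hjP
          have h3 := hm j'
          omega]
        linarith
      · push Not at h
        rw [Finset.sum_eq_zero fun j _ => by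
          have h2 := h j
          have h3 := hm j
          omega]
        linarith
  rw [finsum_add_distrib (fin_mul f1 m) (fin_sum Finset.univ f3), ← mul_finsum _ (m : ℤ),
    finsum_sum_comm Finset.univ _ (fun j _ => f3 j),
    Finset.sum_congr rfl fun j _ => finsum_add_distrib (po_finite (k := k) (hpl j))
      (fin_mul f1 (-1)), Finset.sum_congr rfl fun j _ => by rw [← mul_finsum _ (-1)]] at h1
  have h2 : ∑ᶠ P : Place k L, pord P x = -pht k x := by
    unfold pht
    ring
  have h4 : ∀ j, ∑ᶠ P : Place k L, po P (pl x (pc L (q j))) = -fht k (pl x (pc L (q j))) := by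
    intro j
    unfold fht
    ring
  rw [h2] at h1
  have h5 : ∑ j, (∑ᶠ P : Place k L, po P (pl x (pc L (q j))) + -1 * -pht k x) =
      ∑ j, (pht k x - fht k (pl x (pc L (q j)))) :=
    Finset.sum_congr rfl fun j _ => by rw [h4]; ring
  rw [h5] at h1
  linarith

omit [IsAlgClosed k] in
/-- A generic point is different from the points over the small field. -/
theorem dist_gen {K : IntermediateField ℚ k} {p o : Fin (n + 1) → k} {a c : Fin (n + 1)}
    (hpc : p c ≠ 0) (hpt : Transcendental K (p a / p c)) (ho : ∃ c', o c' ≠ 0)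
    (hoK : ∀ u v, o u / o v ∈ K) : pl p o ≠ 0 := by
  intro h0
  obtain ⟨c', hc'⟩ := ho
  have h1 : ∀ l m, p l * o m = p m * o l := fun l m => sub_eq_zero.1 (congrFun h0 (l, m))
  have h2 : o c ≠ 0 := by
    intro h2
    have h3 := h1 c c'
    rw [h2, mul_zero] at h3
    exact mul_ne_zero hpc hc' h3
  have h3 : p a / p c = o a / o c := by
    rw [div_eq_div_iff hpc h2, h1 a c, mul_comm]
  apply hpt
  rw [h3]
  exact isAlgebraic_algebraMap (⟨o a / o c, hoK a c⟩ : K)

omit [IsAlgClosed k] [CharZero k] in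
theorem pl_norm {p o : Fin (n + 1) → k} {c c' : Fin (n + 1)} (hp : p c ≠ 0) (ho : o c' ≠ 0)
    (h : pl p o ≠ 0) : pl (fun l => p l / p c) (fun l => o l / o c') ≠ 0 := by
  intro h0
  apply h
  funext q
  have h1 := congrFun h0 q
  simp only [pl] at h1 ⊢
  rw [Pi.zero_apply] at h1 ⊢
  field_simp at h1
  rw [mul_zero] at h1
  exact h1

variable {A : Type} [Fintype A] {dg : A → ℕ}

/-- The field that is generated by the coefficients, the special points, and the other points. -/
def KK {k : Type} [Field k] [CharZero k] {n : ℕ} {A J Q : Type}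
    (G : A → MvPolynomial (Fin (n + 1)) k) (q : Q → Fin (n + 1) → k) (p : J → Fin (n + 1) → k)
    (i : J) : IntermediateField ℚ k :=
  IntermediateField.adjoin ℚ ({r | ∃ a u, r = (G a).coeff u} ∪
    {r | ∃ l u v, r = q l u / q l v} ∪ {r | ∃ j, j ≠ i ∧ ∃ u v, r = p j u / p j v})

/-- The degree and the multiplicities at special and at generic points. -/
theorem mainS (hn : n = Fintype.card A + 2) (hdg : ∀ a, 2 ≤ dg a)
    {G : A → MvPolynomial (Fin (n + 1)) k} (hG : ∀ a, (G a).IsHomogeneous (dg a))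
    (hgen : AlgebraicIndependent ℚ fun p : Cf n dg => (G p.1).coeff p.2.1)
    {x : Fin (n + 1) → L} {a b : Fin (n + 1)} (hb : x b ≠ 0)
    (hab : Transcendental k (x a / x b)) (hx : ∀ a, aeval x (G a) = 0)
    {H : MvPolynomial (Fin (n + 1)) k} {m : ℕ} (hH : H.IsHomogeneous m) (hHx : aeval x H ≠ 0)
    {Q : Type} [Fintype Q] {q : Q → Fin (n + 1) → k} (hq0 : ∀ l, ∃ c, q l c ≠ 0)
    (hqd : ∀ l l', l ≠ l' → pl (q l) (q l') ≠ 0) (hHq : ∀ l, eval (q l) H = 0)
    {J : Type} [Fintype J] {p : J → Fin (n + 1) → k}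
    (hp : ∀ i, ∃ a b c, p i c ≠ 0 ∧
      AlgebraicIndependent (KK G q p i) ![p i a / p i c, p i b / p i c]) :
    ((((∑ a, dg a : ℕ) : ℤ) - n - 1) * pht k x +
      ∑ l, (pht k x - fht k (pl x (pc L (q l)))) + ∑ j, (pht k x - fht k (pl x (pc L (p j)))) ≤
      (((∑ a, dg a : ℕ) : ℤ) - n - 1 + m) * pht k x ∧
      ∀ j, pht k x - fht k (pl x (pc L (p j))) = 0) ∨
    ((((∑ a, dg a : ℕ) : ℤ) - n - 1) * pht k x +
      ∑ l, (pht k x - fht k (pl x (pc L (q l)))) + ∑ j, (pht k x - fht k (pl x (pc L (p j)))) ≤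
      canDeg k L + pht k x ∧ (((∑ a, dg a : ℕ) : ℤ) - n - 1) * pht k x ≤ canDeg k L) := by
  classical
  have hx0 : x ≠ 0 := fun h => hb (congrFun h b)
  choose ca cb cc hcc hci using hp
  choose cq hcq using hq0
  have hplp : ∀ j, pl x (pc L (p j)) ≠ 0 := fun j => pl_ne hb hab ⟨_, hcc j⟩
  have hplq : ∀ j, pl x (pc L (q j)) ≠ 0 := fun j => pl_ne hb hab ⟨_, hcq j⟩
  by_cases hex : ∃ i, ∃ P : Place k L, 1 ≤ po P (pl x (pc L (p i))) - pord P x
  swap
  · left
    have h1 : ∀ j, pht k x - fht k (pl x (pc L (p j))) = 0 := by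
      intro j
      have h2 : ∀ P : Place k L, po P (pl x (pc L (p j))) = pord P x := by
        intro P
        have h3 := mult_nonneg P (hplp j)
        have h4 : ¬ (1 ≤ po P (pl x (pc L (p j))) - pord P x) := fun h => hex ⟨j, P, h⟩
        omega
      unfold pht fht
      rw [finsum_congr h2]
      ring
    refine ⟨?_, h1⟩
    rw [Finset.sum_eq_zero fun j _ => h1 j, add_zero]
    have h2 := spec hx0 hH hHx (fun l => ⟨_, hcq l⟩) hqd hHq hplq
    rw [add_mul]
    linarith
  obtain ⟨i, P, hP⟩ := hex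
  right
  -- all points
  obtain ⟨o, ho⟩ : ∃ o : J ⊕ Q → Fin (n + 1) → k, o = Sum.elim p q := ⟨_, rfl⟩
  obtain ⟨co, hco⟩ : ∃ co : J ⊕ Q → Fin (n + 1), co = Sum.elim cc cq := ⟨_, rfl⟩
  have hoc : ∀ j, o j (co j) ≠ 0 := by
    rw [ho, hco]
    rintro (j | l)
    · exact hcc j
    · exact hcq l
  have hpl : ∀ j, pl x (pc L (o j)) ≠ 0 := fun j => pl_ne hb hab ⟨_, hoc j⟩
  have hpos : ∀ j, 0 ≤ pht k x - fht k (pl x (pc L (o j))) := fun j => pos_mult hx0 (hpl j)
  -- normalisation
  have hxa : x (cc i) ≠ 0 := by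
    intro h0
    have h1 : po P (pl x (pc L (p i))) ≤ pord P x := by
      refine le_po P hx0 fun l => ?_
      have h2 := ge_po P (pl x (pc L (p i))) (l, cc i)
      simp only [pl, pc] at h2
      rw [h0, zero_mul, sub_zero] at h2
      have h3 : algebraMap k L (p i (cc i)) ≠ 0 := (map_ne_zero _).2 (hcc i)
      have h4 : Ge P 0 (algebraMap k L (p i (cc i)))⁻¹ := by
        rw [← map_inv₀]
        exact Ge.const _
      have h5 := h2.mul h4
      rw [mul_assoc, mul_inv_cancel₀ h3, mul_one, add_zero] at h5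
      exact h5
    omega
  obtain ⟨x', hx'⟩ : ∃ x' : Fin (n + 1) → L, x' = fun l => (x (cc i))⁻¹ * x l := ⟨_, rfl⟩
  obtain ⟨o', ho'⟩ : ∃ o' : J ⊕ Q → Fin (n + 1) → k, ∀ j, o' j = fun l => o j l / o j (co j) :=
    ⟨_, fun _ => rfl⟩
  have hplx : ∀ j, pl x' (pc L (o' j)) = fun q =>
      ((x (cc i))⁻¹ * (algebraMap k L (o j (co j)))⁻¹) * pl x (pc L (o j)) q := by
    intro j
    funext q
    simp only [pl, pc]
    rw [hx', ho', map_div₀, map_div₀]
    ring
  have hc0 : ∀ j, (x (cc i))⁻¹ * (algebraMap k L (o j (co j)))⁻¹ ≠ 0 := fun j =>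
    mul_ne_zero (inv_ne_zero hxa) (inv_ne_zero ((map_ne_zero _).2 (hoc j)))
  have hf' : ∀ j, fht k (pl x' (pc L (o' j))) = fht k (pl x (pc L (o j))) := fun j => by
    rw [hplx]
    exact fht_scale (hpl j) (hc0 j)
  have hxx : pht k x' = pht k x := by
    rw [hx']
    exact pht_scale ⟨b, hb⟩ (inv_ne_zero hxa)
  have hpord : pord P x' = P.ord (x (cc i))⁻¹ + pord P x := by
    rw [hx']
    exact pord_scale P ⟨b, hb⟩ (inv_ne_zero hxa)
  have hP' : 1 ≤ po P (pl x' (pc L (o' (Sum.inl i)))) - pord P x' := by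
    have h1 : o (Sum.inl i) = p i := by rw [ho]; rfl
    rw [hplx, po_scale P (hpl _) (hc0 _), hpord,
      P.ord_mul (inv_ne_zero hxa) (inv_ne_zero ((map_ne_zero _).2 (hoc _))), P.ord_inv,
      P.ord_inv, P.ord_const (hoc _), h1]
    rw [neg_zero]
    linarith
  have hpl' : ∀ j, pl x' (pc L (o' j)) ≠ 0 := by
    intro j h0
    apply hpl j
    funext q
    have h1 := congrFun h0 q
    rw [hplx] at h1
    exact (mul_eq_zero.1 h1).resolve_left (hc0 j)
  obtain ⟨l0, hl0⟩ : ∃ l0, Transcendental k (x' l0) := by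
    by_contra hcon
    push Not at hcon
    have h1 : ∀ l, IsAlgebraic k (x' l) := fun l => by
      have h2 := hcon l
      rwa [Transcendental, not_not] at h2
    have h2 : x a / x b = x' a / x' b := by
      rw [hx']
      field_simp
    apply hab
    rw [h2, div_eq_mul_inv]
    exact (h1 a).mul (h1 b).inv
  have hKp : ∀ i j : J, j ≠ i → ∀ u v, p j u / p j v ∈ KK G q p i := fun i j h u v =>
    IntermediateField.subset_adjoin ℚ _ (Or.inr ⟨j, h, u, v, rfl⟩)
  have hKq : ∀ (i : J) (l : Q) u v, q l u / q l v ∈ KK G q p i := fun i l u v =>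
    IntermediateField.subset_adjoin ℚ _ (Or.inl (Or.inr ⟨l, u, v, rfl⟩))
  have htr : ∀ j, Transcendental (KK G q p j) (p j (ca j) / p j (cc j)) := fun j =>
    (hci j).transcendental 0
  have hsym : ∀ y z : Fin (n + 1) → k, pl y z ≠ 0 → pl z y ≠ 0 := by
    intro y z h h0
    apply h
    funext r
    have h1 := congrFun h0 r
    simp only [pl] at h1 ⊢
    rw [Pi.zero_apply] at h1 ⊢
    linear_combination -h1
  have hdist0 : ∀ j j', j ≠ j' → pl (o j) (o j') ≠ 0 := by
    rw [ho]
    rintro (j | l) (j' | l') hne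
    · exact dist_gen (hcc j) (htr j) ⟨_, hcc j'⟩
        (hKp j j' fun h => hne (by rw [h]))
    · exact dist_gen (hcc j) (htr j) ⟨_, hcq l'⟩ (hKq j l')
    · exact hsym _ _ (dist_gen (hcc j') (htr j') ⟨_, hcq l⟩ (hKq j' l))
    · exact hqd l l' fun h => hne (by rw [h])
  have hdist : ∀ j j', j ≠ j' → pl (o' j) (o' j') ≠ 0 := fun j j' hne => by
    rw [ho', ho']
    exact pl_norm (hoc j) (hoc j') (hdist0 j j' hne)
  have h1 := core (k := k) (L := L) hn hdg hG hgen (x := x') (a0 := cc i) (l0 := l0)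
    (by rw [hx']; exact inv_mul_cancel₀ hxa) hl0 (fun e => by
      have h2 := eval_smul_hom ((hG e).map (algebraMap k L)) x (x (cc i))⁻¹
      rw [eval_map, eval_map] at h2
      have h3 : x' = (x (cc i))⁻¹ • x := hx'
      rw [h3]
      change eval₂ (algebraMap k L) ((x (cc i))⁻¹ • x) (G e) = 0
      rw [h2]
      have h4 : eval₂ (algebraMap k L) x (G e) = 0 := hx e
      rw [h4, mul_zero])
    (Finset.univ.erase (Sum.inl i)) (p := o')
    (fun j _ => ⟨co j, by rw [ho']; exact div_self (hoc j)⟩)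
    (k0 := KK G q p i)
    (fun a u => ⟨⟨(G a).coeff u, IntermediateField.subset_adjoin ℚ _
      (Or.inl (Or.inl ⟨a, u, rfl⟩))⟩, rfl⟩)
    (fun j hj l => by
      rcases j with j | j
      · refine ⟨⟨p j l / p j (cc j), hKp i j (fun h => ?_) l (cc j)⟩, ?_⟩
        · exact (Finset.ne_of_mem_erase hj) (by rw [h])
        · rw [ho', ho, hco]
          rfl
      · refine ⟨⟨q j l / q j (cq j), hKq i j l (cq j)⟩, ?_⟩
        rw [ho', ho, hco]
        rfl)
    (fun j _ j' _ h => hdist j j' h) hpl' (o := o' (Sum.inl i))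
    (by
      have h2 : co (Sum.inl i) = cc i := by rw [hco]; rfl
      rw [ho']
      change o (Sum.inl i) (cc i) / o (Sum.inl i) (co (Sum.inl i)) = 1
      rw [h2, ← h2]
      exact div_self (hoc _))
    (m := ![ca i, cb i]) (by
      have h2 := hci i
      have h3 : (fun c => o' (Sum.inl i) ((![ca i, cb i] : Fin (1 + 1) → Fin (n + 1)) c)) =
          ![p i (ca i) / p i (cc i), p i (cb i) / p i (cc i)] := by
        funext c
        rw [ho', ho, hco]
        fin_cases c <;> rfl
      rw [h3]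
      exact h2) P hP'
  have hs : ∑ j ∈ Finset.univ.erase (Sum.inl i : J ⊕ Q),
      (pht k x - fht k (pl x' (pc L (o' j)))) =
      ∑ j ∈ Finset.univ.erase (Sum.inl i : J ⊕ Q), (pht k x - fht k (pl x (pc L (o j)))) :=
    Finset.sum_congr rfl fun j _ => by rw [hf' j]
  rw [hxx, hs] at h1
  have h2 := Finset.add_sum_erase Finset.univ
    (fun j : J ⊕ Q => pht k x - fht k (pl x (pc L (o j)))) (Finset.mem_univ (Sum.inl i))
  rw [Fintype.sum_sum_type] at h2
  have h3 : 0 ≤ ∑ j ∈ Finset.univ.erase (Sum.inl i : J ⊕ Q),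
      (pht k x - fht k (pl x (pc L (o j)))) := Finset.sum_nonneg fun j _ => hpos j
  have h4 : 0 ≤ fht k (pl x (pc L (o (Sum.inl i)))) := fht_nonneg (hpl _)
  have h5 : ∑ j : J, (pht k x - fht k (pl x (pc L (o (Sum.inl j))))) =
      ∑ j, (pht k x - fht k (pl x (pc L (p j)))) := by rw [ho]; rfl
  have h6 : ∑ j : Q, (pht k x - fht k (pl x (pc L (o (Sum.inr j))))) =
      ∑ l, (pht k x - fht k (pl x (pc L (q l)))) := by rw [ho]; rfl
  rw [h5, h6] at h2
  refine ⟨?_, ?_⟩
  · linarith
  · linarith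

end

end Pool.Agent.H435.BL
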